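import Mathlib

set_option autoImplicit false

namespace Pool.Agent.Helper30.Agg

open Matrix

/-- The quadratic function `x ↦ xᵀ A x + 2 bᵀ x + c` on `ℝⁿ`. -/
def quad {n : ℕ} (A : Matrix (Fin n) (Fin n) ℝ) (b : Fin n → ℝ) (c : ℝ) (x : Fin n → ℝ) : ℝ :=
  x ⬝ᵥ (A *ᵥ x) + 2 * (b ⬝ᵥ x) + c

/-- The symmetric block matrix `Q = [[A, b], [bᵀ, c]]` of size `n + 1`. -/
def blockQ {n : ℕ} (A : Matrix (Fin n) (Fin n) ℝ) (b : Fin n → ℝ) (c : ℝ) :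
    Matrix (Fin n ⊕ Unit) (Fin n ⊕ Unit) ℝ :=
  Matrix.fromBlocks A (Matrix.of fun i _ => b i) (Matrix.of fun _ j => b j)
    (Matrix.of fun _ _ => c)

/-- The solution set `S = {x : f_i x < 0 for all i}`. -/
def solSet {n m : ℕ} (A : Fin m → Matrix (Fin n) (Fin n) ℝ) (b : Fin m → Fin n → ℝ)
    (c : Fin m → ℝ) : Set (Fin n → ℝ) :=
  {x | ∀ i, quad (A i) (b i) (c i) x < 0}

/-- The homogeneous quadratic map `f^h : ℝⁿ⁺¹ → ℝᵐ`, `f^h_i z = zᵀ Q_i z`. -/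
def homMap {n m : ℕ} (A : Fin m → Matrix (Fin n) (Fin n) ℝ) (b : Fin m → Fin n → ℝ)
    (c : Fin m → ℝ) (z : Fin n ⊕ Unit → ℝ) : Fin m → ℝ :=
  fun i => z ⬝ᵥ (blockQ (A i) (b i) (c i) *ᵥ z)

/-- Hidden hyperplane convexity: the image of every `n`-dimensional linear subspace of `ℝⁿ⁺¹`
under `f^h` is convex. -/
def HHC {n m : ℕ} (A : Fin m → Matrix (Fin n) (Fin n) ℝ) (b : Fin m → Fin n → ℝ)
    (c : Fin m → ℝ) : Prop :=
  ∀ H : Submodule ℝ (Fin n ⊕ Unit → ℝ), Module.finrank ℝ H = n →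
    Convex ℝ (homMap A b c '' (H : Set (Fin n ⊕ Unit → ℝ)))

/-- The set `S_l = {x : ∑ l_i f_i x < 0}`. -/
def aggSet {n m : ℕ} (A : Fin m → Matrix (Fin n) (Fin n) ℝ) (b : Fin m → Fin n → ℝ)
    (c : Fin m → ℝ) (l : Fin m → ℝ) : Set (Fin n → ℝ) :=
  {x | ∑ i, l i * quad (A i) (b i) (c i) x < 0}

/-- `l` is a good aggregation: `l ≥ 0`, `l ≠ 0`, the matrix `Q_l = ∑ l_i Q_i` has at most one
negative eigenvalue (counted with multiplicity), and `conv S ⊆ S_l`. -/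
def IsGood {n m : ℕ} (A : Fin m → Matrix (Fin n) (Fin n) ℝ) (b : Fin m → Fin n → ℝ)
    (c : Fin m → ℝ) (l : Fin m → ℝ) : Prop :=
  (∀ i, 0 ≤ l i) ∧ l ≠ 0 ∧
    Multiset.countP (fun r : ℝ => r < 0)
      (∑ i, l i • blockQ (A i) (b i) (c i)).charpoly.roots ≤ 1 ∧
    convexHull ℝ (solSet A b c) ⊆ aggSet A b c l

end Pool.Agent.Helper30.Agg
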