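import Mathlib
import Pool.Agent.Helper30.AggDefs

set_option autoImplicit false

namespace Pool.Agent.Helper30.Agg

open Matrix

/-! ### Linear algebra: two `Q`-orthogonal negative vectors -/

lemma quadForm_eigen {ι : Type} [Fintype ι] [DecidableEq ι] {Q : Matrix ι ι ℝ}
    (hQ : Q.IsHermitian) (x : ι → ℝ) :
    x ⬝ᵥ (Q *ᵥ x) =
      ∑ j, hQ.eigenvalues j * ((fun i => (hQ.eigenvectorUnitary : Matrix ι ι ℝ) i j) ⬝ᵥ x) ^ 2 := by
  set U : Matrix ι ι ℝ := (hQ.eigenvectorUnitary : Matrix ι ι ℝ) with hU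
  have hspec : Q = U * diagonal hQ.eigenvalues * Uᵀ := by
    have h := hQ.spectral_theorem
    rw [Unitary.conjStarAlgAut_apply] at h
    have e : (RCLike.ofReal ∘ hQ.eigenvalues : ι → ℝ) = hQ.eigenvalues := by
      funext j; simp
    rw [e] at h
    have e2 : (star (hQ.eigenvectorUnitary : Matrix ι ι ℝ)) = Uᵀ := by
      rw [Matrix.star_eq_conjTranspose, Matrix.conjTranspose_eq_transpose_of_trivial]
    rw [← e2]
    exact h
  have h1 : x ⬝ᵥ (Q *ᵥ x) = (Uᵀ *ᵥ x) ⬝ᵥ (diagonal hQ.eigenvalues *ᵥ (Uᵀ *ᵥ x)) := by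
    conv_lhs => rw [hspec]
    rw [← Matrix.mulVec_mulVec, ← Matrix.mulVec_mulVec, Matrix.dotProduct_mulVec]
    congr 1
    exact (Matrix.mulVec_transpose U x).symm
  rw [h1]
  simp only [dotProduct, Matrix.mulVec_diagonal]
  refine Finset.sum_congr rfl (fun j _ => ?_)
  have h2 : (Uᵀ *ᵥ x) j = ∑ i, U i j * x i := rfl
  rw [h2]
  ring

lemma no_two_neg {ι : Type} [Fintype ι] [DecidableEq ι] [Nonempty ι] {Q : Matrix ι ι ℝ}
    (hQ : Q.IsHermitian)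
    (hcount : Multiset.countP (fun r : ℝ => r < 0) Q.charpoly.roots ≤ 1)
    (x y : ι → ℝ) (hxy : x ⬝ᵥ (Q *ᵥ y) = 0) (hx : x ⬝ᵥ (Q *ᵥ x) < 0)
    (hy : y ⬝ᵥ (Q *ᵥ y) < 0) : False := by
  classical
  rw [hQ.roots_charpoly_eq_eigenvalues] at hcount
  rw [Multiset.countP_map] at hcount
  have hcard : (Finset.univ.filter (fun j => hQ.eigenvalues j < 0)).card ≤ 1 := by
    refine le_trans (le_of_eq ?_) hcount
    rw [Finset.card_def, Finset.filter_val]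
    congr 1
  obtain ⟨j0, hj0⟩ : ∃ j0, ∀ j, j ≠ j0 → 0 ≤ hQ.eigenvalues j := by
    by_cases h : ∃ j, hQ.eigenvalues j < 0
    · obtain ⟨j0, hj0⟩ := h
      refine ⟨j0, fun j hj => ?_⟩
      by_contra hneg
      push Not at hneg
      have := Finset.card_le_one.1 hcard j (by simp [hneg]) j0 (by simp [hj0])
      exact hj this
    · push Not at h
      exact ⟨Classical.arbitrary ι, fun j _ => h j⟩
  set V : ι → ι → ℝ := fun j i => (hQ.eigenvectorUnitary : Matrix ι ι ℝ) i j with hV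
  have hnonneg : ∀ z : ι → ℝ, V j0 ⬝ᵥ z = 0 → 0 ≤ z ⬝ᵥ (Q *ᵥ z) := by
    intro z hz
    rw [quadForm_eigen hQ z]
    refine Finset.sum_nonneg (fun j _ => ?_)
    by_cases hj : j = j0
    · subst hj
      have : (fun i => (hQ.eigenvectorUnitary : Matrix ι ι ℝ) i j) ⬝ᵥ z = 0 := hz
      rw [this]; simp
    · exact mul_nonneg (hj0 j hj) (sq_nonneg _)
  have hsymm : y ⬝ᵥ (Q *ᵥ x) = 0 := by
    have hQt : Qᵀ = Q := by
      have := hQ.eq
      rwa [Matrix.conjTranspose_eq_transpose_of_trivial] at this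
    rw [Matrix.dotProduct_mulVec, ← Matrix.mulVec_transpose, hQt, dotProduct_comm]
    exact hxy
  set cx := V j0 ⬝ᵥ x with hcx
  set cy := V j0 ⬝ᵥ y with hcy
  by_cases h0 : cx = 0
  · have := hnonneg x (by rw [← hcx, h0])
    linarith
  · have h1 : V j0 ⬝ᵥ (cy • x - cx • y) = 0 := by
      rw [dotProduct_sub, dotProduct_smul, dotProduct_smul, ← hcx, ← hcy]
      simp only [smul_eq_mul]; ring
    have h2 := hnonneg _ h1
    have h3 : (cy • x - cx • y) ⬝ᵥ (Q *ᵥ (cy • x - cx • y)) =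
        cy ^ 2 * (x ⬝ᵥ (Q *ᵥ x)) + cx ^ 2 * (y ⬝ᵥ (Q *ᵥ y)) := by
      rw [Matrix.mulVec_sub, Matrix.mulVec_smul, Matrix.mulVec_smul, sub_dotProduct,
        dotProduct_sub, dotProduct_sub, smul_dotProduct, smul_dotProduct, dotProduct_smul,
        dotProduct_smul, smul_dotProduct, smul_dotProduct, dotProduct_smul, dotProduct_smul,
        hxy, hsymm]
      simp only [smul_eq_mul]; ring
    rw [h3] at h2
    have h4 : 0 < cx ^ 2 := by positivity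
    nlinarith [mul_pos h4 (neg_pos.2 hy), mul_nonneg (sq_nonneg cy) (neg_pos.2 hx).le]

/-! ### The planar Gram lemma -/

/-- Rotation step: a vector of a 2-plane can be rotated so that a functional takes any prescribed
value of modulus at most the norm. -/
lemma exists_rot (l m y : ℝ) (h : y ^ 2 ≤ l ^ 2 + m ^ 2) :
    ∃ c s : ℝ, c ^ 2 + s ^ 2 = 1 ∧ c * l + s * m = y := by
  by_cases h0 : l ^ 2 + m ^ 2 = 0
  · have hl : l = 0 := by nlinarith [sq_nonneg l, sq_nonneg m]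
    have hm : m = 0 := by nlinarith [sq_nonneg l, sq_nonneg m]
    have hy : y = 0 := by
      have : y ^ 2 ≤ 0 := by linarith
      exact pow_eq_zero_iff (two_ne_zero) |>.1 (le_antisymm this (sq_nonneg y))
    exact ⟨1, 0, by norm_num, by rw [hl, hm, hy]; ring⟩
  · set N := l ^ 2 + m ^ 2 with hN
    set r := Real.sqrt (N - y ^ 2) with hr
    have hr2 : r ^ 2 = N - y ^ 2 := Real.sq_sqrt (by linarith)
    refine ⟨(y * l - r * m) / N, (y * m + r * l) / N, ?_, ?_⟩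
    · have : (y * l - r * m) ^ 2 + (y * m + r * l) ^ 2 = (y ^ 2 + r ^ 2) * N := by rw [hN]; ring
      rw [div_pow, div_pow, ← add_div, this, hr2]
      have h5 : (y ^ 2 + (N - y ^ 2)) * N = N ^ 2 := by ring
      rw [h5, div_self (pow_ne_zero 2 h0)]
    · field_simp
      rw [hN]; ring

/-- vectors with prescribed Gram data and orientation -/
lemma exists_gram (P Q R e : ℝ) (hP : 0 ≤ P) (hQ : 0 ≤ Q) (h : P * Q = R ^ 2 + e ^ 2) :
    ∃ x0 x1 x2 x3 : ℝ, x0 ^ 2 + x1 ^ 2 = P ∧ x2 ^ 2 + x3 ^ 2 = Q ∧ x0 * x2 + x1 * x3 = R ∧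
      x0 * x3 - x1 * x2 = e := by
  by_cases h0 : P = 0
  · have hR : R = 0 := by rw [h0] at h; nlinarith [sq_nonneg R, sq_nonneg e]
    have he : e = 0 := by rw [h0] at h; nlinarith [sq_nonneg R, sq_nonneg e]
    refine ⟨0, 0, Real.sqrt Q, 0, by rw [h0]; ring, ?_, by rw [hR]; ring, by rw [he]; ring⟩
    rw [Real.sq_sqrt hQ]; ring
  · have hPpos : 0 < P := lt_of_le_of_ne hP (Ne.symm h0)
    have hs : 0 < Real.sqrt P := Real.sqrt_pos.2 hPpos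
    have hs2 : Real.sqrt P ^ 2 = P := Real.sq_sqrt hP
    refine ⟨Real.sqrt P, 0, R / Real.sqrt P, e / Real.sqrt P, by rw [hs2]; ring, ?_, ?_, ?_⟩
    · rw [div_pow, div_pow, hs2]
      field_simp
      linarith
    · field_simp; ring
    · field_simp; ring

/-- The convexity of the set of `(|p|², |q|², p·q, t²)` over a hyperplane. -/
lemma hyper_convex (w0 w1 w2 w3 nu : ℝ) (x0 x1 x2 x3 t y0 y1 y2 y3 u a b : ℝ)
    (ha : 0 ≤ a) (hb : 0 ≤ b)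
    (hx : w0 * x0 + w1 * x1 + w2 * x2 + w3 * x3 + nu * t = 0)
    (hy : w0 * y0 + w1 * y1 + w2 * y2 + w3 * y3 + nu * u = 0) :
    ∃ z0 z1 z2 z3 r : ℝ,
      w0 * z0 + w1 * z1 + w2 * z2 + w3 * z3 + nu * r = 0 ∧
      z0 ^ 2 + z1 ^ 2 = a * (x0 ^ 2 + x1 ^ 2) + b * (y0 ^ 2 + y1 ^ 2) ∧
      z2 ^ 2 + z3 ^ 2 = a * (x2 ^ 2 + x3 ^ 2) + b * (y2 ^ 2 + y3 ^ 2) ∧
      z0 * z2 + z1 * z3 = a * (x0 * x2 + x1 * x3) + b * (y0 * y2 + y1 * y3) ∧
      r ^ 2 = a * t ^ 2 + b * u ^ 2 := by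
  set P1 := x0 ^ 2 + x1 ^ 2 with hP1
  set Q1 := x2 ^ 2 + x3 ^ 2 with hQ1
  set R1 := x0 * x2 + x1 * x3 with hR1
  set e1 := x0 * x3 - x1 * x2 with he1
  set P2 := y0 ^ 2 + y1 ^ 2 with hP2
  set Q2 := y2 ^ 2 + y3 ^ 2 with hQ2
  set R2 := y0 * y2 + y1 * y3 with hR2
  set e2 := y0 * y3 - y1 * y2 with he2
  have hP1n : 0 ≤ P1 := by positivity
  have hQ1n : 0 ≤ Q1 := by positivity
  have hP2n : 0 ≤ P2 := by positivity
  have hQ2n : 0 ≤ Q2 := by positivity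
  have hL1 : P1 * Q1 = R1 ^ 2 + e1 ^ 2 := by rw [hP1, hQ1, hR1, he1]; ring
  have hL2 : P2 * Q2 = R2 ^ 2 + e2 ^ 2 := by rw [hP2, hQ2, hR2, he2]; ring
  -- mixed discriminant inequality
  have hmix : 2 * (R1 * R2 + |e1| * |e2|) ≤ P1 * Q2 + P2 * Q1 := by
    have h1 : 0 ≤ P1 * Q2 + P2 * Q1 := by positivity
    have h2 : (2 * (R1 * R2 + |e1| * |e2|)) ^ 2 ≤ (P1 * Q2 + P2 * Q1) ^ 2 := by
      have h3 : (R1 * R2 + |e1| * |e2|) ^ 2 ≤ (R1 ^ 2 + |e1| ^ 2) * (R2 ^ 2 + |e2| ^ 2) := by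
        nlinarith [sq_nonneg (R1 * |e2| - R2 * |e1|)]
      rw [sq_abs, sq_abs, ← hL1, ← hL2] at h3
      have h4 : (P1 * Q2 + P2 * Q1) ^ 2 =
          (P1 * Q2 - P2 * Q1) ^ 2 + 4 * ((P1 * Q1) * (P2 * Q2)) := by ring
      have h5 : (2 * (R1 * R2 + |e1| * |e2|)) ^ 2 = 4 * (R1 * R2 + |e1| * |e2|) ^ 2 := by ring
      rw [h4, h5]
      linarith [sq_nonneg (P1 * Q2 - P2 * Q1)]
    exact (le_abs_self _).trans (abs_le_of_sq_le_sq h2 h1)
  set P := a * P1 + b * P2 with hP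
  set Q := a * Q1 + b * Q2 with hQ
  set R := a * R1 + b * R2 with hR
  have hPn : 0 ≤ P := by positivity
  have hQn : 0 ≤ Q := by positivity
  have hdet : (a * |e1| + b * |e2|) ^ 2 ≤ P * Q - R ^ 2 := by
    have h5 : P * Q - R ^ 2 - (a * |e1| + b * |e2|) ^ 2 =
        a ^ 2 * (P1 * Q1 - R1 ^ 2 - |e1| ^ 2) + b ^ 2 * (P2 * Q2 - R2 ^ 2 - |e2| ^ 2) +
        a * b * (P1 * Q2 + P2 * Q1 - 2 * (R1 * R2 + |e1| * |e2|)) := by
      rw [hP, hQ, hR]; ring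
    rw [sq_abs, sq_abs, hL1, hL2] at h5
    have h6 : 0 ≤ a * b * (P1 * Q2 + P2 * Q1 - 2 * (R1 * R2 + |e1| * |e2|)) :=
      mul_nonneg (mul_nonneg ha hb) (by linarith)
    have h7 : a ^ 2 * (R1 ^ 2 + e1 ^ 2 - R1 ^ 2 - e1 ^ 2) + b ^ 2 * (R2 ^ 2 + e2 ^ 2 - R2 ^ 2 - e2 ^ 2)
        = 0 := by ring
    linarith
  have hdn : 0 ≤ P * Q - R ^ 2 := le_trans (sq_nonneg _) hdet
  set E := Real.sqrt (P * Q - R ^ 2) with hE
  have hE2 : E ^ 2 = P * Q - R ^ 2 := Real.sq_sqrt hdn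
  have hEn : 0 ≤ E := Real.sqrt_nonneg _
  have hEge : a * |e1| + b * |e2| ≤ E := by
    rw [hE]; exact Real.le_sqrt_of_sq_le hdet
  set D := w0 * w3 - w1 * w2 with hD
  obtain ⟨sg, hsg2, hsgD⟩ : ∃ sg : ℝ, sg ^ 2 = 1 ∧ sg * D = |D| := by
    rcases abs_cases D with ⟨h, _⟩ | ⟨h, _⟩
    · exact ⟨1, by norm_num, by rw [h, one_mul]⟩
    · exact ⟨-1, by norm_num, by rw [h]; ring⟩
  obtain ⟨v0, v1, v2, v3, k1, k2, k3, k4⟩ := exists_gram P Q R (sg * E) hPn hQn (by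
    rw [mul_pow, hsg2, hE2]; ring)
  -- values of the functional and of its rotated version
  set L := w0 * v0 + w1 * v1 + w2 * v2 + w3 * v3 with hL
  set M := -(w0 * v1) + w1 * v0 - w2 * v3 + w3 * v2 with hM
  have hLM : L ^ 2 + M ^ 2 = (w0 ^ 2 + w1 ^ 2) * P + (w2 ^ 2 + w3 ^ 2) * Q +
      2 * (w0 * w2 + w1 * w3) * R + 2 * D * (sg * E) := by
    rw [← k1, ← k2, ← k3, ← k4, hL, hM, hD]; ring
  have hLM' : L ^ 2 + M ^ 2 = (w0 ^ 2 + w1 ^ 2) * P + (w2 ^ 2 + w3 ^ 2) * Q +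
      2 * (w0 * w2 + w1 * w3) * R + 2 * |D| * E := by
    rw [hLM, ← hsgD]; ring
  have hest : ∀ p0 p1 p2 p3 q : ℝ, w0 * p0 + w1 * p1 + w2 * p2 + w3 * p3 + nu * q = 0 →
      nu ^ 2 * q ^ 2 ≤ (w0 ^ 2 + w1 ^ 2) * (p0 ^ 2 + p1 ^ 2) + (w2 ^ 2 + w3 ^ 2) * (p2 ^ 2 + p3 ^ 2)
        + 2 * (w0 * w2 + w1 * w3) * (p0 * p2 + p1 * p3) + 2 * |D| * |p0 * p3 - p1 * p2| := by
    intro p0 p1 p2 p3 q hp
    have h1 : nu * q = -(w0 * p0 + w1 * p1 + w2 * p2 + w3 * p3) := by linarith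
    have h2 : nu ^ 2 * q ^ 2 = (w0 * p0 + w1 * p1 + w2 * p2 + w3 * p3) ^ 2 := by
      rw [← mul_pow, h1]; ring
    have h3 : (w0 * p0 + w1 * p1 + w2 * p2 + w3 * p3) ^ 2 +
        (-(w0 * p1) + w1 * p0 - w2 * p3 + w3 * p2) ^ 2 =
        (w0 ^ 2 + w1 ^ 2) * (p0 ^ 2 + p1 ^ 2) + (w2 ^ 2 + w3 ^ 2) * (p2 ^ 2 + p3 ^ 2)
        + 2 * (w0 * w2 + w1 * w3) * (p0 * p2 + p1 * p3) + 2 * (D * (p0 * p3 - p1 * p2)) := by
      rw [hD]; ring
    have h4 : D * (p0 * p3 - p1 * p2) ≤ |D| * |p0 * p3 - p1 * p2| := by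
      rw [← abs_mul]; exact le_abs_self _
    rw [h2]
    linarith [sq_nonneg (-(w0 * p1) + w1 * p0 - w2 * p3 + w3 * p2)]
  have hb1 := hest x0 x1 x2 x3 t hx
  have hb2 := hest y0 y1 y2 y3 u hy
  rw [← hP1, ← hQ1, ← hR1, ← he1] at hb1
  rw [← hP2, ← hQ2, ← hR2, ← he2] at hb2
  have htn : 0 ≤ a * t ^ 2 + b * u ^ 2 := by positivity
  set r := Real.sqrt (a * t ^ 2 + b * u ^ 2) with hr
  have hr2 : r ^ 2 = a * t ^ 2 + b * u ^ 2 := Real.sq_sqrt htn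
  have hkey : (-(nu * r)) ^ 2 ≤ L ^ 2 + M ^ 2 := by
    have h1 : (-(nu * r)) ^ 2 = a * (nu ^ 2 * t ^ 2) + b * (nu ^ 2 * u ^ 2) := by
      rw [neg_sq, mul_pow, hr2]; ring
    rw [h1, hLM']
    have h2 := mul_le_mul_of_nonneg_left hb1 ha
    have h3 := mul_le_mul_of_nonneg_left hb2 hb
    have h4 := mul_le_mul_of_nonneg_left hEge (abs_nonneg D)
    rw [hP, hQ, hR]
    linarith
  obtain ⟨c, s, hcs, hval⟩ := exists_rot L M (-(nu * r)) hkey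
  refine ⟨c * v0 - s * v1, s * v0 + c * v1, c * v2 - s * v3, s * v2 + c * v3, r, ?_, ?_, ?_, ?_,
    hr2⟩
  · have : w0 * (c * v0 - s * v1) + w1 * (s * v0 + c * v1) + w2 * (c * v2 - s * v3) +
        w3 * (s * v2 + c * v3) = c * L + s * M := by rw [hL, hM]; ring
    linarith
  · have : (c * v0 - s * v1) ^ 2 + (s * v0 + c * v1) ^ 2 = (c ^ 2 + s ^ 2) * (v0 ^ 2 + v1 ^ 2) := by
      ring
    rw [this, hcs, k1, one_mul]
  · have : (c * v2 - s * v3) ^ 2 + (s * v2 + c * v3) ^ 2 = (c ^ 2 + s ^ 2) * (v2 ^ 2 + v3 ^ 2) := by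
      ring
    rw [this, hcs, k2, one_mul]
  · have : (c * v0 - s * v1) * (c * v2 - s * v3) + (s * v0 + c * v1) * (s * v2 + c * v3) =
        (c ^ 2 + s ^ 2) * (v0 * v2 + v1 * v3) := by ring
    rw [this, hcs, k3, one_mul]

/-! ### The example -/

/-- coefficients of `|p|²` -/
def al : Fin 3 → ℝ := ![0, 4, 0]
/-- coefficients of `|q|²` -/
def be : Fin 3 → ℝ := ![2, -2, 2]
/-- coefficients of `2 p·q` -/
def ga : Fin 3 → ℝ := ![-1, -1, 3]

/-- the quadratic parts -/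
def exA (i : Fin 3) : Matrix (Fin 4) (Fin 4) ℝ :=
  !![al i, 0, ga i, 0; 0, al i, 0, ga i; ga i, 0, be i, 0; 0, ga i, 0, be i]

/-- the linear parts -/
def exb (_ : Fin 3) : Fin 4 → ℝ := 0

/-- the constant parts -/
def exc (_ : Fin 3) : ℝ := -1

lemma exA_symm (i : Fin 3) : (exA i).IsSymm := by
  ext j k
  fin_cases j <;> fin_cases k <;> rfl

lemma quad_ex (i : Fin 3) (x : Fin 4 → ℝ) : quad (exA i) (exb i) (exc i) x =
    al i * (x 0 ^ 2 + x 1 ^ 2) + be i * (x 2 ^ 2 + x 3 ^ 2) + 2 * ga i * (x 0 * x 2 + x 1 * x 3)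
      - 1 := by
  simp [quad, exA, exb, exc, dotProduct, mulVec, Fin.sum_univ_succ]
  ring

lemma block_form (al' be' ga' c : ℝ) (z z' : Fin 4 ⊕ Unit → ℝ) :
    z ⬝ᵥ (blockQ !![al', 0, ga', 0; 0, al', 0, ga'; ga', 0, be', 0; 0, ga', 0, be'] 0 c *ᵥ z') =
    al' * (z (Sum.inl 0) * z' (Sum.inl 0) + z (Sum.inl 1) * z' (Sum.inl 1)) +
    be' * (z (Sum.inl 2) * z' (Sum.inl 2) + z (Sum.inl 3) * z' (Sum.inl 3)) +
    ga' * (z (Sum.inl 0) * z' (Sum.inl 2) + z (Sum.inl 1) * z' (Sum.inl 3)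
      + z (Sum.inl 2) * z' (Sum.inl 0) + z (Sum.inl 3) * z' (Sum.inl 1)) +
    c * (z (Sum.inr ()) * z' (Sum.inr ())) := by
  simp [blockQ, dotProduct, mulVec, Fin.sum_univ_succ, Matrix.fromBlocks]
  ring

lemma hom_ex (z : Fin 4 ⊕ Unit → ℝ) (i : Fin 3) : homMap exA exb exc z i =
    al i * (z (Sum.inl 0) ^ 2 + z (Sum.inl 1) ^ 2) + be i * (z (Sum.inl 2) ^ 2 + z (Sum.inl 3) ^ 2)
      + 2 * ga i * (z (Sum.inl 0) * z (Sum.inl 2) + z (Sum.inl 1) * z (Sum.inl 3))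
      - z (Sum.inr ()) ^ 2 := by
  have := block_form (al i) (be i) (ga i) (-1) z z
  change z ⬝ᵥ (blockQ !![al i, 0, ga i, 0; 0, al i, 0, ga i; ga i, 0, be i, 0; 0, ga i, 0, be i]
    0 (-1) *ᵥ z) = _
  rw [this]; ring

theorem ex_HHC : HHC exA exb exc := by
  intro H hH
  -- the hyperplane is the kernel of a functional
  have hlt : H < ⊤ := by
    refine lt_top_iff_ne_top.2 (fun h => ?_)
    rw [h, finrank_top] at hH
    simp at hH
  obtain ⟨φ, hφ, hle⟩ := Submodule.exists_le_ker_of_lt_top H hlt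
  have hker : H = LinearMap.ker φ := by
    refine Submodule.eq_of_le_of_finrank_le hle ?_
    have h1 := LinearMap.finrank_range_add_finrank_ker φ
    have h2 : Module.finrank ℝ (LinearMap.range φ) = 1 := by
      rw [LinearMap.range_eq_top.2 (LinearMap.surjective hφ)]
      simp
    rw [h2] at h1
    simp at h1
    omega
  have hφz : ∀ z : Fin 4 ⊕ Unit → ℝ, φ z =
      φ (Pi.single (Sum.inl 0) 1) * z (Sum.inl 0) + φ (Pi.single (Sum.inl 1) 1) * z (Sum.inl 1) +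
      φ (Pi.single (Sum.inl 2) 1) * z (Sum.inl 2) + φ (Pi.single (Sum.inl 3) 1) * z (Sum.inl 3) +
      φ (Pi.single (Sum.inr ()) 1) * z (Sum.inr ()) := by
    intro z
    have hz : z = ∑ j, z j • (Pi.single j (1 : ℝ) : Fin 4 ⊕ Unit → ℝ) := by
      funext k
      simp [Finset.sum_apply, Pi.single_apply]
    conv_lhs => rw [hz]
    rw [map_sum]
    simp only [map_smul, smul_eq_mul, Fintype.sum_sum_type, Fin.sum_univ_succ]
    simp
    ring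
  rw [convex_iff_forall_pos]
  rintro _ ⟨x, hx, rfl⟩ _ ⟨y, hy, rfl⟩ a b ha hb hab
  have hx' : φ x = 0 := by
    have : x ∈ LinearMap.ker φ := hker ▸ hx
    exact this
  have hy' : φ y = 0 := by
    have : y ∈ LinearMap.ker φ := hker ▸ hy
    exact this
  rw [hφz] at hx' hy'
  obtain ⟨z0, z1, z2, z3, r, g0, g1, g2, g3, g4⟩ := hyper_convex _ _ _ _ _ _ _ _ _ _ _ _ _ _ _
    a b ha.le hb.le hx' hy'
  refine ⟨Sum.elim ![z0, z1, z2, z3] (fun _ => r), ?_, ?_⟩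
  · have : Sum.elim ![z0, z1, z2, z3] (fun _ => r) ∈ LinearMap.ker φ := by
      rw [LinearMap.mem_ker, hφz]
      simpa using g0
    rw [← hker] at this
    exact this
  · funext i
    rw [hom_ex, Pi.add_apply, Pi.smul_apply, Pi.smul_apply, hom_ex, hom_ex]
    simp only [Sum.elim_inl, Sum.elim_inr, smul_eq_mul]
    have c0 : (![z0, z1, z2, z3] : Fin 4 → ℝ) 0 = z0 := rfl
    have c1 : (![z0, z1, z2, z3] : Fin 4 → ℝ) 1 = z1 := rfl
    have c2 : (![z0, z1, z2, z3] : Fin 4 → ℝ) 2 = z2 := rfl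
    have c3 : (![z0, z1, z2, z3] : Fin 4 → ℝ) 3 = z3 := rfl
    rw [c0, c1, c2, c3, g1, g2, g3, g4]
    ring

/-- supporting aggregation `μ_k` -/
noncomputable def mu (k : ℝ) : Fin 3 → ℝ := ![((1 - k) ^ 2 + 2 * k ^ 2) / 4, 1 / 2, (1 + k) ^ 2 / 4]

lemma mu_nonneg (k : ℝ) (i : Fin 3) : 0 ≤ mu k i := by
  fin_cases i <;> simp [mu] <;> positivity

lemma mu_sum (k : ℝ) (x : Fin 4 → ℝ) : ∑ i, mu k i * quad (exA i) (exb i) (exc i) x =
    2 * ((x 0 + k * x 2) ^ 2 + (x 1 + k * x 3) ^ 2) - (1 + k ^ 2) := by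
  simp only [quad_ex, Fin.sum_univ_succ, mu, al, be, ga]
  simp
  ring

lemma sol_sub (k : ℝ) : solSet exA exb exc ⊆
    {x | 2 * ((x 0 + k * x 2) ^ 2 + (x 1 + k * x 3) ^ 2) < 1 + k ^ 2} := by
  intro x hx
  have h1 : ∑ i, mu k i * quad (exA i) (exb i) (exc i) x < 0 := by
    have h2 : ∀ i, mu k i * quad (exA i) (exb i) (exc i) x ≤ 0 := fun i =>
      mul_nonpos_of_nonneg_of_nonpos (mu_nonneg k i) (hx i).le
    refine lt_of_le_of_ne (Finset.sum_nonpos (fun i _ => h2 i)) (fun h => ?_)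
    have h3 := (Finset.sum_eq_zero_iff_of_nonpos (fun i _ => h2 i)).1 h 1 (Finset.mem_univ _)
    have h4 : mu k 1 = 1 / 2 := rfl
    rw [h4] at h3
    have h5 := hx 1
    linarith
  rw [mu_sum] at h1
  simp only [Set.mem_ofPred_eq]
  linarith

lemma convex_strip (k : ℝ) :
    Convex ℝ {x : Fin 4 → ℝ | 2 * ((x 0 + k * x 2) ^ 2 + (x 1 + k * x 3) ^ 2) < 1 + k ^ 2} := by
  intro x hx y hy a b ha hb hab
  simp only [Set.mem_ofPred_eq, Pi.add_apply, Pi.smul_apply, smul_eq_mul] at *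
  set X0 := x 0 + k * x 2
  set X1 := x 1 + k * x 3
  set Y0 := y 0 + k * y 2
  set Y1 := y 1 + k * y 3
  have e0 : a * x 0 + b * y 0 + k * (a * x 2 + b * y 2) = a * X0 + b * Y0 := by ring
  have e1 : a * x 1 + b * y 1 + k * (a * x 3 + b * y 3) = a * X1 + b * Y1 := by ring
  rw [e0, e1]
  have hb' : b = 1 - a := by linarith
  have h1 : (a * X0 + b * Y0) ^ 2 + (a * X1 + b * Y1) ^ 2 =
      a * (X0 ^ 2 + X1 ^ 2) + b * (Y0 ^ 2 + Y1 ^ 2) - a * b * ((X0 - Y0) ^ 2 + (X1 - Y1) ^ 2) := by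
    rw [hb']; ring
  have h2 : 0 ≤ a * b * ((X0 - Y0) ^ 2 + (X1 - Y1) ^ 2) := by positivity
  rw [h1]
  rcases ha.eq_or_lt with h0 | h0
  · rw [← h0] at hb' ⊢
    rw [hb']
    nlinarith
  · have h3 := mul_lt_mul_of_pos_left hx h0
    have h4 := mul_le_mul_of_nonneg_left hy.le hb
    have h5 : a * (1 + k ^ 2) + b * (1 + k ^ 2) = 1 + k ^ 2 := by rw [hb']; ring
    linarith

lemma hull_sub (k : ℝ) : convexHull ℝ (solSet exA exb exc) ⊆
    {x | 2 * ((x 0 + k * x 2) ^ 2 + (x 1 + k * x 3) ^ 2) < 1 + k ^ 2} :=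
  convexHull_min (sol_sub k) (convex_strip k)

/-- the radius -/
noncomputable def rad (k : ℝ) : ℝ := Real.sqrt (1 / (2 * (1 + k ^ 2)))

lemma rad_sq (k : ℝ) : rad k ^ 2 = 1 / (2 * (1 + k ^ 2)) := Real.sq_sqrt (by positivity)

/-- the boundary point -/
noncomputable def pt (k : ℝ) : Fin 4 → ℝ := ![rad k, 0, k * rad k, 0]

lemma pt_notMem (k : ℝ) : pt k ∉ convexHull ℝ (solSet exA exb exc) := by
  intro h
  have h1 := hull_sub k h
  simp only [Set.mem_ofPred_eq] at h1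
  have c0 : pt k 0 = rad k := rfl
  have c1 : pt k 1 = 0 := rfl
  have c2 : pt k 2 = k * rad k := rfl
  have c3 : pt k 3 = 0 := rfl
  rw [c0, c1, c2, c3] at h1
  have h2 : 2 * ((rad k + k * (k * rad k)) ^ 2 + (0 + k * 0) ^ 2) = 2 * rad k ^ 2 * (1 + k ^ 2) ^ 2 := by
    ring
  rw [h2, rad_sq] at h1
  have h3 : (1 + k ^ 2) ≠ 0 := by positivity
  have h4 : 2 * (1 / (2 * (1 + k ^ 2))) * (1 + k ^ 2) ^ 2 = 1 + k ^ 2 := by
    field_simp
  rw [h4] at h1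
  exact lt_irrefl _ h1

lemma sum_block (l : Fin 3 → ℝ) : ∑ i, l i • blockQ (exA i) (exb i) (exc i) =
    blockQ !![4 * l 1, 0, -l 0 - l 1 + 3 * l 2, 0; 0, 4 * l 1, 0, -l 0 - l 1 + 3 * l 2;
      -l 0 - l 1 + 3 * l 2, 0, 2 * l 0 - 2 * l 1 + 2 * l 2, 0;
      0, -l 0 - l 1 + 3 * l 2, 0, 2 * l 0 - 2 * l 1 + 2 * l 2] 0 (-(l 0 + l 1 + l 2)) := by
  ext j k
  rcases j with j | j <;> rcases k with k | k
  · fin_cases j <;> fin_cases k <;>
      simp [Fin.sum_univ_succ, blockQ, exA, al, be, ga] <;> ring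
  · simp [Fin.sum_univ_succ, blockQ, exb]
  · simp [Fin.sum_univ_succ, blockQ, exb]
  · simp [Fin.sum_univ_succ, blockQ, exc]; ring

lemma good_psd (l : Fin 3 → ℝ) (hl : IsGood exA exb exc l) (u v : ℝ) :
    0 ≤ 4 * l 1 * u ^ 2 + (2 * l 0 - 2 * l 1 + 2 * l 2) * v ^ 2
      + 2 * (-l 0 - l 1 + 3 * l 2) * (u * v) := by
  obtain ⟨h0, hne, hc, _⟩ := hl
  rw [sum_block] at hc
  by_contra hneg
  push Not at hneg
  have hpos : 0 < l 0 + l 1 + l 2 := by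
    have hs : 0 ≤ l 0 + l 1 + l 2 := by linarith [h0 0, h0 1, h0 2]
    refine lt_of_le_of_ne hs (fun h => hne ?_)
    have a0 : l 0 = 0 := by linarith [h0 0, h0 1, h0 2]
    have a1 : l 1 = 0 := by linarith [h0 0, h0 1, h0 2]
    have a2 : l 2 = 0 := by linarith [h0 0, h0 1, h0 2]
    funext i
    fin_cases i
    · exact a0
    · exact a1
    · exact a2
  set Q := blockQ !![4 * l 1, 0, -l 0 - l 1 + 3 * l 2, 0; 0, 4 * l 1, 0, -l 0 - l 1 + 3 * l 2;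
      -l 0 - l 1 + 3 * l 2, 0, 2 * l 0 - 2 * l 1 + 2 * l 2, 0;
      0, -l 0 - l 1 + 3 * l 2, 0, 2 * l 0 - 2 * l 1 + 2 * l 2] 0 (-(l 0 + l 1 + l 2)) with hQdef
  have hQ : Q.IsHermitian := by
    ext j k
    rw [Matrix.conjTranspose_eq_transpose_of_trivial, Matrix.transpose_apply]
    rcases j with j | j <;> rcases k with k | k
    · fin_cases j <;> fin_cases k <;> rfl
    · rfl
    · rfl
    · rfl
  refine no_two_neg hQ hc (Sum.elim ![u, 0, v, 0] (fun _ => 0)) (Sum.elim 0 (fun _ => 1)) ?_ ?_ ?_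
  · rw [hQdef, block_form]; simp
  · rw [hQdef, block_form]
    simp only [Sum.elim_inl, Sum.elim_inr]
    have c0 : (![u, 0, v, 0] : Fin 4 → ℝ) 0 = u := rfl
    have c1 : (![u, 0, v, 0] : Fin 4 → ℝ) 1 = 0 := rfl
    have c2 : (![u, 0, v, 0] : Fin 4 → ℝ) 2 = v := rfl
    have c3 : (![u, 0, v, 0] : Fin 4 → ℝ) 3 = 0 := rfl
    rw [c0, c1, c2, c3]
    nlinarith
  · rw [hQdef, block_form]
    simp only [Sum.elim_inl, Sum.elim_inr, Pi.zero_apply]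
    linarith

lemma agg_pt (l : Fin 3 → ℝ) (k : ℝ) (h : pt k ∉ aggSet exA exb exc l) :
    4 * l 1 * k ^ 2 + (2 * l 0 - 2 * l 1 + 2 * l 2) - 2 * (-l 0 - l 1 + 3 * l 2) * k ≤ 0 := by
  simp only [aggSet, Set.mem_ofPred_eq, not_lt] at h
  have c0 : pt k 0 = rad k := rfl
  have c1 : pt k 1 = 0 := rfl
  have c2 : pt k 2 = k * rad k := rfl
  have c3 : pt k 3 = 0 := rfl
  simp only [quad_ex, Fin.sum_univ_succ, c0, c1, c2, c3, al, be, ga] at h
  simp at h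
  have hr := rad_sq k
  have hk : 0 < 1 + k ^ 2 := by positivity
  have hr' : rad k ^ 2 * (2 * (1 + k ^ 2)) = 1 := by rw [hr]; field_simp
  have e : (l 0 * (2 * (k * rad k) ^ 2 + -(2 * (rad k * (k * rad k))) - 1) +
      (l 1 * (4 * rad k ^ 2 + -(2 * (k * rad k) ^ 2) + -(2 * (rad k * (k * rad k))) - 1) +
      l 2 * (2 * (k * rad k) ^ 2 + 2 * 3 * (rad k * (k * rad k)) - 1))) * (2 * (1 + k ^ 2)) =
      (4 * l 1 + (2 * l 0 - 2 * l 1 + 2 * l 2) * k ^ 2 + 2 * (-l 0 - l 1 + 3 * l 2) * k)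
        * (rad k ^ 2 * (2 * (1 + k ^ 2))) - (l 0 + l 1 + l 2) * (2 * (1 + k ^ 2)) := by ring
  rw [hr'] at e
  have h2 := mul_nonneg h (by positivity : (0:ℝ) ≤ 2 * (1 + k ^ 2))
  nlinarith

theorem ex_not_finite : ¬ ∃ F : Finset (Fin 3 → ℝ), F.Nonempty ∧
    (∀ l ∈ F, IsGood exA exb exc l) ∧
    convexHull ℝ (solSet exA exb exc) = ⋂ l ∈ F, aggSet exA exb exc l := by
  rintro ⟨F, _, hgood, heq⟩
  have h1 : ∀ k : ℕ, ∃ l : F, pt (k : ℝ) ∉ aggSet exA exb exc l.1 := by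
    intro k
    have := pt_notMem (k : ℝ)
    rw [heq] at this
    simp only [Set.mem_iInter, not_forall] at this
    obtain ⟨l, hl, h⟩ := this
    exact ⟨⟨l, hl⟩, h⟩
  choose g hg using h1
  obtain ⟨k, k', hkk, hgk⟩ := Finite.exists_ne_map_eq_of_infinite g
  have e1 := agg_pt _ _ (hg k)
  have e2 := agg_pt _ _ (hg k')
  rw [← hgk] at e2
  set l := (g k).1 with hl
  have hG := hgood l (g k).2
  have hpsd := good_psd l hG
  obtain ⟨h0, hne, _, _⟩ := hG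
  set A := 4 * l 1 with hA
  set B := 2 * l 0 - 2 * l 1 + 2 * l 2 with hB
  set C := -l 0 - l 1 + 3 * l 2 with hC
  have hkk' : ((k : ℝ) - k') ≠ 0 := sub_ne_zero.2 (by exact_mod_cast hkk)
  have p1 := hpsd (-(k:ℝ)) 1
  have p2 := hpsd (-(k':ℝ)) 1
  have q1 : A * (k:ℝ) ^ 2 + B - 2 * C * k = 0 := by nlinarith
  have q2 : A * (k':ℝ) ^ 2 + B - 2 * C * k' = 0 := by nlinarith
  have p3 := hpsd (-(((k:ℝ) + k') / 2)) 1
  have hA0 : A = 0 := by
    have hA1 : 0 ≤ A := by rw [hA]; linarith [h0 1]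
    have h5 : A * ((k:ℝ) - k') ^ 2 ≤ 0 := by nlinarith
    have h6 : 0 < ((k:ℝ) - k') ^ 2 := by positivity
    nlinarith
  have hC0 : C = 0 := by
    have h5 : 2 * C * ((k:ℝ) - k') = 0 := by rw [hA0] at q1 q2; linarith
    rcases mul_eq_zero.1 h5 with h6 | h6
    · linarith
    · exact absurd h6 hkk'
  have hB0 : B = 0 := by rw [hA0, hC0] at q1; linarith
  apply hne
  have a1 : l 1 = 0 := by linarith
  have a0 : l 0 = 0 := by linarith [h0 0, h0 2]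
  have a2 : l 2 = 0 := by linarith [h0 0, h0 2]
  funext i
  fin_cases i
  · exact a0
  · exact a1
  · exact a2

lemma ex_nonempty : (solSet exA exb exc).Nonempty := by
  refine ⟨0, fun i => ?_⟩
  rw [quad_ex]
  simp

lemma ex_ne_univ : convexHull ℝ (solSet exA exb exc) ≠ Set.univ := by
  intro h
  have := pt_notMem 0
  rw [h] at this
  exact this (Set.mem_univ _)

end Pool.Agent.Helper30.Agg
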