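import Mathlib

set_option autoImplicit false

open MeasureTheory Filter Set
open scoped Topology NNReal ENNReal

namespace Pool.Agent.Helper30

/-- the block space -/
abbrev F6 : Type := Fin 6 → ℝ

/-- the `ℓ¹`-sum of countably many blocks -/
abbrev W6 : Type := lp (fun _ : ℕ => F6) 1

lemma W6_hasSum_norm (f : W6) : HasSum (fun k => ‖f k‖) ‖f‖ := by
  have := lp.hasSum_norm (p := 1) (by simp) f
  simpa using this

lemma W6_summable_norm (f : W6) : Summable (fun k => ‖f k‖) := (W6_hasSum_norm f).summable

lemma W6_norm (f : W6) : ‖f‖ = ∑' k, ‖f k‖ := (W6_hasSum_norm f).tsum_eq.symm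

/-- evaluation of the coordinate `(k, i)` as a continuous linear map. -/
noncomputable def ev (k : ℕ) (i : Fin 6) : W6 →L[ℝ] ℝ :=
  (ContinuousLinearMap.proj (R := ℝ) (φ := fun _ : Fin 6 => ℝ) i).comp
    (lp.evalCLM ℝ (fun _ : ℕ => F6) 1 k)

lemma ev_apply (k : ℕ) (i : Fin 6) (f : W6) : ev k i f = f k i := rfl

/-- `ℓ¹(ℕ, ℝ⁶)` has the Radon-Nikodym property in Lipschitz form. -/
theorem l1_rnp (f : ℝ → W6) (K : ℝ≥0) (hf : LipschitzWith K f) :
    ∀ᵐ t ∂(volume : Measure ℝ), DifferentiableAt ℝ f t := by
  -- coordinates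
  have hcoord : ∀ k : ℕ, LipschitzWith K (fun t => f t k) := by
    intro k
    refine LipschitzWith.of_dist_le_mul (fun s t => ?_)
    calc dist (f s k) (f t k) = ‖(f s - f t) k‖ := by simp [dist_eq_norm]
      _ ≤ ‖f s - f t‖ := lp.norm_apply_le_norm (by simp) _ _
      _ = dist (f s) (f t) := by rw [dist_eq_norm]
      _ ≤ K * dist s t := hf.dist_le_mul s t
  have hdiff : ∀ᵐ t ∂(volume : Measure ℝ), ∀ k : ℕ, DifferentiableAt ℝ (fun t => f t k) t :=
    ae_all_iff.2 (fun k => (hcoord k).ae_differentiableAt)
  -- finite sums of derivatives are bounded by K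
  have hsum : ∀ t, (∀ k : ℕ, DifferentiableAt ℝ (fun t => f t k) t) →
      ∀ s : Finset ℕ, ∑ k ∈ s, ‖deriv (fun t => f t k) t‖ ≤ K := by
    intro t ht s
    have h1 : ∀ k ∈ s, Tendsto (fun h : ℝ => ‖h⁻¹ • (f (t + h) k - f t k)‖) (𝓝[≠] 0)
        (𝓝 ‖deriv (fun t => f t k) t‖) := fun k _ =>
      ((ht k).hasDerivAt.tendsto_slope_zero).norm
    have h2 := tendsto_finsetSum s h1
    refine le_of_tendsto h2 ?_
    filter_upwards [self_mem_nhdsWithin] with h hh
    have hh0 : h ≠ 0 := hh
    calc ∑ k ∈ s, ‖h⁻¹ • (f (t + h) k - f t k)‖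
        = |h|⁻¹ * ∑ k ∈ s, ‖(f (t + h) - f t) k‖ := by
          rw [Finset.mul_sum]
          refine Finset.sum_congr rfl (fun k _ => ?_)
          rw [norm_smul, norm_inv, Real.norm_eq_abs]
          rfl
      _ ≤ |h|⁻¹ * ‖f (t + h) - f t‖ := by
          refine mul_le_mul_of_nonneg_left ?_ (by positivity)
          rw [W6_norm]
          exact Summable.sum_le_tsum _ (fun _ _ => norm_nonneg _) (W6_summable_norm _)
      _ ≤ |h|⁻¹ * (K * |h|) := by
          refine mul_le_mul_of_nonneg_left ?_ (by positivity)
          have := hf.dist_le_mul (t + h) t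
          rw [dist_eq_norm, dist_eq_norm] at this
          simpa using this
      _ = K := by
          field_simp
  have hmem : ∀ t, (∀ k : ℕ, DifferentiableAt ℝ (fun t => f t k) t) →
      Memℓp (fun k => deriv (fun t => f t k) t) 1 := by
    intro t ht
    refine memℓp_gen' (C := K) ?_
    intro s
    simpa using hsum t ht s
  classical
  -- the derivative
  let g : ℝ → W6 := fun t =>
    if ht : (∀ k : ℕ, DifferentiableAt ℝ (fun t => f t k) t) then
      ⟨(fun k => deriv (fun t => f t k) t), hmem t ht⟩ else 0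
  have hg : ∀ t (_ : ∀ k : ℕ, DifferentiableAt ℝ (fun t => f t k) t) (k : ℕ),
      g t k = deriv (fun t => f t k) t := by
    intro t ht k
    simp only [g, dif_pos ht]
  have hgnorm : ∀ t, ‖g t‖ ≤ K := by
    intro t
    by_cases ht : (∀ k : ℕ, DifferentiableAt ℝ (fun t => f t k) t)
    · rw [W6_norm]
      refine Real.tsum_le_of_sum_le (fun _ => norm_nonneg _) (fun s => ?_)
      have := hsum t ht s
      refine le_trans (le_of_eq ?_) this
      refine Finset.sum_congr rfl (fun k _ => ?_)
      rw [hg t ht k]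
    · simp only [g, dif_neg ht, norm_zero]
      exact K.2
  -- measurability
  have hmeas : AEStronglyMeasurable g volume := by
    let gn : ℕ → ℝ → W6 := fun n t => ∑ k ∈ Finset.range n,
      lp.single 1 k (deriv (fun t => f t k) t)
    refine aestronglyMeasurable_of_tendsto_ae (u := atTop) (f := gn) ?_ ?_
    · intro n
      refine Finset.aestronglyMeasurable_fun_sum _ (fun k _ => ?_)
      have h1 : Continuous (fun x : F6 => (lp.single 1 k x : W6)) :=
        (lp.isometry_single (E := fun _ : ℕ => F6) (p := 1) k).continuous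
      exact h1.comp_aestronglyMeasurable (measurable_deriv _).aestronglyMeasurable
    · filter_upwards [hdiff] with t ht
      have h := lp.hasSum_single (p := 1) (by simp) (g t)
      have h2 := h.tendsto_sum_nat
      refine h2.congr (fun n => ?_)
      refine Finset.sum_congr rfl (fun k _ => ?_)
      rw [hg t ht k]
  have hloc : LocallyIntegrable g volume := by
    refine (locallyIntegrable_const (K : ℝ)).mono hmeas ?_
    refine Eventually.of_forall (fun t => ?_)
    refine (hgnorm t).trans ?_
    rw [Real.norm_eq_abs]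
    exact le_abs_self _
  have hint : ∀ a b : ℝ, IntervalIntegrable g volume a b := fun a b =>
    intervalIntegrable_iff.mpr <|
      (hloc.integrableOn_isCompact isCompact_uIcc).mono_set uIoc_subset_uIcc
  -- f is the integral of g
  have hftc : ∀ t, f t - f 0 = ∫ s in (0:ℝ)..t, g s := by
    intro t
    refine lp.ext ?_
    funext k
    funext i
    have e1 : (∫ s in (0:ℝ)..t, g s : W6) k i = ∫ s in (0:ℝ)..t, ev k i (g s) := by
      rw [ContinuousLinearMap.intervalIntegral_comp_comm (ev k i) (hint 0 t)]
      rfl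
    rw [e1]
    have e2 : ∫ s in (0:ℝ)..t, ev k i (g s) = ∫ s in (0:ℝ)..t, deriv (fun s => f s k i) s := by
      refine intervalIntegral.integral_congr_ae ?_
      filter_upwards [hdiff] with s hs _
      rw [ev_apply, hg s hs k]
      have := (hasDerivAt_pi.1 (hs k).hasDerivAt i).deriv
      exact this.symm
    rw [e2]
    have hlip : LipschitzWith K (fun s => f s k i) := by
      refine LipschitzWith.of_dist_le_mul (fun s t => ?_)
      exact (dist_le_pi_dist (f s k) (f t k) i).trans ((hcoord k).dist_le_mul s t)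
    have := (hlip.lipschitzOnWith (s := uIcc (0:ℝ) t)).absolutelyContinuousOnInterval.integral_deriv_eq_sub
    rw [this]
    rfl
  filter_upwards [_root_.LocallyIntegrable.ae_hasDerivAt_integral hloc] with t ht
  have h := ht 0
  have h2 : HasDerivAt (fun t => f t - f 0) (g t) t := by
    refine h.congr_of_eventuallyEq ?_
    exact Eventually.of_forall (fun s => hftc s)
  have h3 : HasDerivAt (fun t => (f t - f 0) + f 0) (g t) t := h2.add_const (f 0)
  have h4 : HasDerivAt f (g t) t := by simpa using h3
  exact h4.differentiableAt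

end Pool.Agent.Helper30
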