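import Mathlib
import Pool.Agent.Helper30.L1RNP

set_option autoImplicit false

open MeasureTheory Filter Set
open scoped Topology NNReal ENNReal

namespace Pool.Agent.Helper30

/-- mean of the first three coordinates -/
noncomputable def gF : F6 →L[ℝ] ℝ :=
  (1 / 3 : ℝ) • (ContinuousLinearMap.proj (R := ℝ) (φ := fun _ : Fin 6 => ℝ) 0
    + ContinuousLinearMap.proj (R := ℝ) (φ := fun _ : Fin 6 => ℝ) 1
    + ContinuousLinearMap.proj (R := ℝ) (φ := fun _ : Fin 6 => ℝ) 2)

/-- mean of the last three coordinates -/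
noncomputable def hF : F6 →L[ℝ] ℝ :=
  (1 / 3 : ℝ) • (ContinuousLinearMap.proj (R := ℝ) (φ := fun _ : Fin 6 => ℝ) 3
    + ContinuousLinearMap.proj (R := ℝ) (φ := fun _ : Fin 6 => ℝ) 4
    + ContinuousLinearMap.proj (R := ℝ) (φ := fun _ : Fin 6 => ℝ) 5)

lemma gF_apply (p : F6) : gF p = (p 0 + p 1 + p 2) / 3 := by
  simp [gF]; ring

lemma hF_apply (p : F6) : hF p = (p 3 + p 4 + p 5) / 3 := by
  simp [hF]; ring

lemma abs_coord_le (p : F6) (i : Fin 6) : |p i| ≤ ‖p‖ := by
  rw [← Real.norm_eq_abs]; exact norm_le_pi_norm p i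

lemma gF_le (p : F6) : |gF p| ≤ ‖p‖ := by
  rw [gF_apply, abs_le]
  have h0 := abs_le.1 (abs_coord_le p 0)
  have h1 := abs_le.1 (abs_coord_le p 1)
  have h2 := abs_le.1 (abs_coord_le p 2)
  constructor <;> linarith [h0.1, h0.2, h1.1, h1.2, h2.1, h2.2]

lemma hF_le (p : F6) : |hF p| ≤ ‖p‖ := by
  rw [hF_apply, abs_le]
  have h0 := abs_le.1 (abs_coord_le p 3)
  have h1 := abs_le.1 (abs_coord_le p 4)
  have h2 := abs_le.1 (abs_coord_le p 5)
  constructor <;> linarith [h0.1, h0.2, h1.1, h1.2, h2.1, h2.2]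

/-- The functional `w ↦ ∑ m_k(w_k)` for a family of contractive functionals `m_k`. -/
noncomputable def Msum (m : ℕ → F6 →L[ℝ] ℝ) (hm : ∀ k p, |m k p| ≤ ‖p‖) : W6 →L[ℝ] ℝ :=
  LinearMap.mkContinuous
    { toFun := fun w => ∑' k, m k (w k)
      map_add' := by
        intro x y
        have hx : Summable (fun k => m k (x k)) :=
          Summable.of_norm_bounded (W6_summable_norm x) (fun k => hm k _)
        have hy : Summable (fun k => m k (y k)) :=
          Summable.of_norm_bounded (W6_summable_norm y) (fun k => hm k _)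
        rw [← hx.tsum_add hy]
        refine tsum_congr (fun k => ?_)
        have : (x + y) k = x k + y k := rfl
        rw [this, map_add]
      map_smul' := by
        intro c x
        simp only [RingHom.id_apply, smul_eq_mul]
        rw [← tsum_mul_left]
        refine tsum_congr (fun k => ?_)
        have : (c • x) k = c • x k := rfl
        rw [this, map_smul, smul_eq_mul] } 1
    (by
      intro w
      rw [one_mul]
      change ‖∑' k, m k (w k)‖ ≤ ‖w‖
      rw [W6_norm]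
      exact tsum_of_norm_bounded (W6_summable_norm w).hasSum (fun k => hm k _))

lemma Msum_apply (m : ℕ → F6 →L[ℝ] ℝ) (hm : ∀ k p, |m k p| ≤ ‖p‖) (w : W6) :
    Msum m hm w = ∑' k, m k (w k) := rfl

lemma Msum_summable (m : ℕ → F6 →L[ℝ] ℝ) (hm : ∀ k p, |m k p| ≤ ‖p‖) (w : W6) :
    Summable (fun k => m k (w k)) :=
  Summable.of_norm_bounded (W6_summable_norm w) (fun k => hm k _)

lemma Msum_le (m : ℕ → F6 →L[ℝ] ℝ) (hm : ∀ k p, |m k p| ≤ ‖p‖) (w : W6) :
    |Msum m hm w| ≤ ‖w‖ := by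
  rw [← Real.norm_eq_abs, Msum_apply, W6_norm]
  exact tsum_of_norm_bounded (W6_summable_norm w).hasSum (fun k => hm k _)

lemma Msum_single (m : ℕ → F6 →L[ℝ] ℝ) (hm : ∀ k p, |m k p| ≤ ‖p‖) (j : ℕ) (p : F6) :
    Msum m hm (lp.single 1 j p) = m j p := by
  rw [Msum_apply, tsum_eq_single j]
  · rw [lp.single_apply_self]
  · intro k hk
    rw [lp.single_apply_ne _ _ _ hk, map_zero]

/-- total mass functional -/
noncomputable def GW : W6 →L[ℝ] ℝ := Msum (fun _ => gF) (fun _ p => gF_le p)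

lemma ite_gF_le (j k : ℕ) (p : F6) : |(if k ≤ j then gF else 0 : F6 →L[ℝ] ℝ) p| ≤ ‖p‖ := by
  split_ifs
  · exact gF_le p
  · simp

/-- partial sum functionals -/
noncomputable def SW (j : ℕ) : W6 →L[ℝ] ℝ :=
  Msum (fun k => if k ≤ j then gF else 0) (fun k p => ite_gF_le j k p)

/-- the `j`-th extra functional -/
noncomputable def HW (j : ℕ) : W6 →L[ℝ] ℝ :=
  hF.comp (lp.evalCLM ℝ (fun _ : ℕ => F6) 1 j)

lemma HW_apply (j : ℕ) (w : W6) : HW j w = hF (w j) := rfl

lemma GW_le (w : W6) : |GW w| ≤ ‖w‖ := Msum_le _ _ w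
lemma SW_le (j : ℕ) (w : W6) : |SW j w| ≤ ‖w‖ := Msum_le _ _ w
lemma HW_le (j : ℕ) (w : W6) : |HW j w| ≤ ‖w‖ :=
  (hF_le _).trans (lp.norm_apply_le_norm (by simp) _ _)

lemma GW_single (j : ℕ) (p : F6) : GW (lp.single 1 j p) = gF p := Msum_single _ _ _ _

lemma SW_single (i j : ℕ) (p : F6) :
    SW i (lp.single 1 j p) = if j ≤ i then gF p else 0 := by
  rw [SW, Msum_single]
  split_ifs <;> simp

lemma HW_single (i j : ℕ) (p : F6) :
    HW i (lp.single 1 j p) = if i = j then hF p else 0 := by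
  rw [HW_apply]
  split_ifs with h
  · subst h
    rw [lp.single_apply_self]
  · rw [lp.single_apply_ne _ _ _ h, map_zero]

lemma SW_eq_sum (j : ℕ) (w : W6) : SW j w = ∑ k ∈ Finset.range (j + 1), gF (w k) := by
  rw [SW, Msum_apply, tsum_eq_sum (s := Finset.range (j + 1))]
  · refine Finset.sum_congr rfl (fun k hk => ?_)
    have : k ≤ j := Nat.lt_succ_iff.1 (Finset.mem_range.1 hk)
    simp [this]
  · intro k hk
    have : ¬ k ≤ j := fun h => hk (Finset.mem_range.2 (Nat.lt_succ_iff.2 h))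
    simp [this]

lemma SW_tendsto (w : W6) : Tendsto (fun j => SW j w) atTop (𝓝 (GW w)) := by
  have h : HasSum (fun k => gF (w k)) (GW w) := by
    have := (Msum_summable (fun _ => gF) (fun _ p => gF_le p) w).hasSum
    exact this
  have h2 := h.tendsto_sum_nat
  have h3 := h2.comp (tendsto_add_atTop_nat 1)
  refine h3.congr (fun j => ?_)
  rw [SW_eq_sum]
  rfl

lemma HW_tendsto (w : W6) : Tendsto (fun j => HW j w) atTop (𝓝 0) := by
  have h : Tendsto (fun k => ‖w k‖) atTop (𝓝 0) := (W6_summable_norm w).tendsto_atTop_zero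
  refine squeeze_zero_norm (fun j => ?_) h
  exact hF_le _

/-- The underlying vector space of the example. -/
def XX : Type := ℝ × W6

/-- the additive structure, used only to define the norm -/
@[reducible] noncomputable def acgXX : AddCommGroup XX := inferInstanceAs (AddCommGroup (ℝ × W6))

section Setup

attribute [local instance] acgXX

/-- the module structure, used only to define the norm -/
@[reducible] noncomputable def modXX : Module ℝ XX := inferInstanceAs (Module ℝ (ℝ × W6))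

end Setup

/-- target of the norming embedding -/
abbrev YY : Type := ℂ × lp (fun _ : ℕ => ℝ × ℝ) ∞ × W6

/-- The small parameter. -/
noncomputable def kap : ℝ := 1 / 20

lemma kap_pos : 0 < kap := by unfold kap; norm_num

lemma memB (w : W6) : Memℓp (fun j : ℕ => ((SW j w + HW j w, SW j w - HW j w) : ℝ × ℝ)) ∞ := by
  refine memℓp_infty ⟨2 * ‖w‖, ?_⟩
  rintro _ ⟨j, rfl⟩
  have h1 := abs_le.1 (SW_le j w)
  have h2 := abs_le.1 (HW_le j w)
  refine max_le ?_ ?_
  · change |SW j w + HW j w| ≤ _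
    rw [abs_le]; constructor <;> linarith [h1.1, h1.2, h2.1, h2.2]
  · change |SW j w - HW j w| ≤ _
    rw [abs_le]; constructor <;> linarith [h1.1, h1.2, h2.1, h2.2]

section Setup2

attribute [local instance] acgXX modXX

/-- The norming embedding. -/
noncomputable def Psi : XX →ₗ[ℝ] YY where
  toFun x := (((x.1 : ℂ) + (GW x.2 : ℂ) * Complex.I), ⟨_, memB x.2⟩, kap • x.2)
  map_add' x y := by
    have e1 : (x + y).1 = x.1 + y.1 := rfl
    have e2 : (x + y).2 = x.2 + y.2 := rfl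
    refine Prod.ext ?_ (Prod.ext ?_ ?_)
    · simp only [e1, e2, map_add, Prod.fst_add]
      push_cast; ring
    · refine lp.ext ?_
      funext j
      simp only [e2, map_add]
      refine Prod.ext ?_ ?_
      · change _ = (SW j x.2 + HW j x.2) + (SW j y.2 + HW j y.2)
        ring
      · change _ = (SW j x.2 - HW j x.2) + (SW j y.2 - HW j y.2)
        ring
    · simp only [e2, smul_add, Prod.snd_add]
  map_smul' c x := by
    have e1 : (c • x).1 = c * x.1 := rfl
    have e2 : (c • x).2 = c • x.2 := rfl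
    refine Prod.ext ?_ (Prod.ext ?_ ?_)
    · simp only [e1, e2, map_smul, Prod.smul_fst, RingHom.id_apply, smul_eq_mul,
        Complex.real_smul]
      push_cast; ring
    · refine lp.ext ?_
      funext j
      simp only [e2, map_smul]
      refine Prod.ext ?_ ?_
      · change _ = c * (SW j x.2 + HW j x.2)
        simp only [smul_eq_mul]; ring
      · change _ = c * (SW j x.2 - HW j x.2)
        simp only [smul_eq_mul]; ring
    · simp only [e2, Prod.smul_snd, RingHom.id_apply]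
      rw [smul_comm]

lemma Psi_injective : Function.Injective Psi := by
  rw [← LinearMap.ker_eq_bot, LinearMap.ker_eq_bot']
  intro x hx
  have h1 : ((x.1 : ℂ) + (GW x.2 : ℂ) * Complex.I) = 0 := congrArg (fun y : YY => y.1) hx
  have h2 : kap • x.2 = 0 := congrArg (fun y : YY => y.2.2) hx
  have h3 : x.2 = 0 := (smul_eq_zero.1 h2).resolve_left kap_pos.ne'
  have h4 : x.1 = 0 := by
    have := congrArg Complex.re h1
    simpa using this
  exact Prod.ext h4 h3

noncomputable instance instNACG : NormedAddCommGroup XX :=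
  NormedAddCommGroup.induced XX YY Psi Psi_injective

noncomputable instance instNS : NormedSpace ℝ XX := NormedSpace.induced ℝ XX YY Psi

end Setup2

lemma XX_norm (x : XX) : ‖x‖ = ‖Psi x‖ := rfl

lemma XX_norm_le {x : XX} {c : ℝ} (hc : 0 ≤ c) (h1 : x.1 ^ 2 + GW x.2 ^ 2 ≤ c ^ 2)
    (h2 : ∀ j, |SW j x.2| + |HW j x.2| ≤ c) (h3 : kap * ‖x.2‖ ≤ c) : ‖x‖ ≤ c := by
  rw [XX_norm]
  refine max_le ?_ (max_le ?_ ?_)
  · change ‖(x.1 : ℂ) + (GW x.2 : ℂ) * Complex.I‖ ≤ c
    rw [Complex.norm_add_mul_I]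
    exact Real.sqrt_le_iff.2 ⟨hc, h1⟩
  · refine lp.norm_le_of_forall_le hc (fun j => ?_)
    have hj := h2 j
    refine max_le ?_ ?_
    · exact (abs_add_le _ _).trans hj
    · exact (abs_sub _ _).trans hj
  · change ‖kap • x.2‖ ≤ c
    rw [norm_smul, Real.norm_eq_abs, abs_of_pos kap_pos]
    exact h3

lemma XX_norm_E (x : XX) : x.1 ^ 2 + GW x.2 ^ 2 ≤ ‖x‖ ^ 2 := by
  have h : ‖(x.1 : ℂ) + (GW x.2 : ℂ) * Complex.I‖ ≤ ‖x‖ := le_max_left _ _
  rw [Complex.norm_add_mul_I] at h
  exact (Real.sqrt_le_left (norm_nonneg _)).1 h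

lemma XX_norm_B (x : XX) (j : ℕ) : |SW j x.2| + |HW j x.2| ≤ ‖x‖ := by
  have h : ‖((SW j x.2 + HW j x.2, SW j x.2 - HW j x.2) : ℝ × ℝ)‖ ≤ ‖x‖ := by
    have h1 : ‖(Psi x).2.1‖ ≤ ‖x‖ := (le_max_left _ _).trans (le_max_right _ _)
    exact (lp.norm_apply_le_norm (by simp) (Psi x).2.1 j).trans h1
  have h1 : |SW j x.2 + HW j x.2| ≤ ‖x‖ := (le_max_left _ _).trans h
  have h2 : |SW j x.2 - HW j x.2| ≤ ‖x‖ := (le_max_right _ _).trans h
  have h1' := abs_le.1 h1
  have h2' := abs_le.1 h2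
  rcases abs_cases (SW j x.2) with ⟨e1, _⟩ | ⟨e1, _⟩ <;>
    rcases abs_cases (HW j x.2) with ⟨e2, _⟩ | ⟨e2, _⟩ <;>
    rw [e1, e2] <;> linarith [h1'.1, h1'.2, h2'.1, h2'.2]

lemma XX_norm_C (x : XX) : kap * ‖x.2‖ ≤ ‖x‖ := by
  have h : ‖(Psi x).2.2‖ ≤ ‖x‖ := (le_max_right _ _).trans (le_max_right _ _)
  have e : (Psi x).2.2 = kap • x.2 := rfl
  rw [e, norm_smul, Real.norm_eq_abs, abs_of_pos kap_pos] at h
  exact h

lemma XX_norm_fst (x : XX) : |x.1| ≤ ‖x‖ := by
  refine abs_le_of_sq_le_sq ?_ (norm_nonneg _)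
  nlinarith [XX_norm_E x, sq_nonneg (GW x.2)]

lemma XX_norm_G (x : XX) : |GW x.2| ≤ ‖x‖ := by
  refine abs_le_of_sq_le_sq ?_ (norm_nonneg _)
  nlinarith [XX_norm_E x, sq_nonneg x.1]

/-- The identity as a linear equivalence onto `ℝ × W6`. -/
noncomputable def toProd : XX ≃ₗ[ℝ] (ℝ × W6) where
  toFun x := (x.1, x.2)
  invFun y := (y.1, y.2)
  map_add' _ _ := rfl
  map_smul' _ _ := rfl
  left_inv _ := rfl
  right_inv _ := rfl

lemma toProd_bound (x : XX) : ‖toProd x‖ ≤ 20 * ‖x‖ := by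
  have h1 := XX_norm_fst x
  have h2 := XX_norm_C x
  have h3 : ‖toProd x‖ = max ‖x.1‖ ‖x.2‖ := rfl
  rw [h3]
  refine max_le ?_ ?_
  · rw [Real.norm_eq_abs]
    have := norm_nonneg x
    linarith
  · unfold kap at h2
    linarith

lemma toProd_symm_bound (y : ℝ × W6) : ‖toProd.symm y‖ ≤ 2 * ‖y‖ := by
  have h1 : |y.1| ≤ ‖y‖ := norm_fst_le y
  have h2 : ‖y.2‖ ≤ ‖y‖ := norm_snd_le y
  have h0 : 0 ≤ ‖y‖ := norm_nonneg y
  have hG := GW_le y.2
  refine XX_norm_le (x := toProd.symm y) (by positivity) ?_ ?_ ?_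
  · change y.1 ^ 2 + GW y.2 ^ 2 ≤ _
    have a1 : y.1 ^ 2 ≤ ‖y‖ ^ 2 := sq_le_sq' (by linarith [neg_abs_le y.1]) ((le_abs_self _).trans h1)
    have a2 : GW y.2 ^ 2 ≤ ‖y‖ ^ 2 :=
      sq_le_sq' (by linarith [neg_abs_le (GW y.2)]) ((le_abs_self _).trans (hG.trans h2))
    nlinarith
  · intro j
    change |SW j y.2| + |HW j y.2| ≤ _
    linarith [SW_le j y.2, HW_le j y.2]
  · change kap * ‖y.2‖ ≤ _
    unfold kap
    have := norm_nonneg y.2
    linarith

/-- `XX` is isomorphic to `ℝ × ℓ¹`. -/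
noncomputable def toProdL : XX ≃L[ℝ] (ℝ × W6) :=
  LinearEquiv.toContinuousLinearEquivOfBounds toProd 20 2 toProd_bound toProd_symm_bound

lemma toProdL_apply (x : XX) : toProdL x = (x.1, x.2) := rfl

instance : CompleteSpace XX :=
  (completeSpace_congr (e := toProdL.toEquiv) toProdL.isUniformEmbedding).2 inferInstance

/-- `XX` has the Radon-Nikodym property. -/
theorem XX_rnp (f : ℝ → XX) (K : ℝ≥0) (hf : LipschitzWith K f) :
    ∀ᵐ t ∂(volume : Measure ℝ), DifferentiableAt ℝ f t := by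
  have h0 : LipschitzWith (20 * K) (fun t => toProdL (f t)) := by
    refine LipschitzWith.of_dist_le_mul (fun s t => ?_)
    rw [dist_eq_norm, ← map_sub]
    have h1 := toProd_bound (f s - f t)
    have h2 := hf.dist_le_mul s t
    rw [dist_eq_norm] at h2
    push_cast
    calc ‖toProdL (f s - f t)‖ ≤ 20 * ‖f s - f t‖ := h1
      _ ≤ 20 * (K * dist s t) := by linarith
      _ = 20 * K * dist s t := by ring
  have h1 : LipschitzWith (20 * K) (fun t => (toProdL (f t)).1) := by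
    have := LipschitzWith.prod_fst.comp h0
    simpa [Function.comp_def] using this
  have h2 : LipschitzWith (20 * K) (fun t => (toProdL (f t)).2) := by
    have := LipschitzWith.prod_snd.comp h0
    simpa [Function.comp_def] using this
  filter_upwards [h1.ae_differentiableAt, l1_rnp _ _ h2] with t ht1 ht2
  have h3 : DifferentiableAt ℝ (fun t => ((toProdL (f t)).1, (toProdL (f t)).2)) t := ht1.prodMk ht2
  have h4 : DifferentiableAt ℝ (fun t => toProdL.symm (toProdL (f t))) t :=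
    toProdL.symm.differentiableAt.comp t h3
  simpa using h4

end Pool.Agent.Helper30
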