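import Mathlib
import Pool.Agent.Helper30.NISpace

set_option autoImplicit false

open MeasureTheory Filter Set
open scoped Topology NNReal ENNReal

namespace Pool.Agent.Helper30

/-- `v` bounds `|φ (T x)|` on all norm-attaining pairs. -/
def RadBound (T : XX →L[ℝ] XX) (v : ℝ) : Prop :=
  ∀ (φ : XX →L[ℝ] ℝ) (x : XX), (∀ y, |φ y| ≤ ‖y‖) → ‖x‖ ≤ 1 → φ x = 1 → |φ (T x)| ≤ v

lemma pert {T : XX →L[ℝ] XX} {v : ℝ} (hv : RadBound T v) (φ : XX →L[ℝ] ℝ)
    (hφ : ∀ y, |φ y| ≤ ‖y‖) (x z z0 : XX) (lam : ℝ) (hl : 0 < lam) (hz0 : ‖z0‖ ≤ 1)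
    (hφz0 : φ z0 = 1) (hx : ‖x‖ ≤ 1)
    (hp : ‖lam • x + z + (1 - φ z - lam * φ x) • z0‖ ≤ 1)
    (hm : ‖lam • (-x) + z + (1 - φ z - lam * φ (-x)) • z0‖ ≤ 1) :
    |φ (T x)| ≤ v / lam + v := by
  have h1 := hv φ _ hφ hp (by
    simp only [map_add, map_smul, smul_eq_mul, hφz0]; ring)
  have h2 := hv φ _ hφ hm (by
    simp only [map_add, map_smul, smul_eq_mul, hφz0]; ring)
  have h3 := hv φ z0 hφ hz0 hφz0
  have hx1 : |φ x| ≤ 1 := (hφ x).trans hx
  simp only [map_add, map_smul, smul_eq_mul, map_neg] at h1 h2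
  have hv0 : 0 ≤ v := (abs_nonneg _).trans h3
  have h4 : |φ x * φ (T z0)| ≤ v := by
    rw [abs_mul]
    calc |φ x| * |φ (T z0)| ≤ 1 * v := mul_le_mul hx1 h3 (abs_nonneg _) zero_le_one
      _ = v := one_mul v
  have e1 := abs_le.1 h1
  have e2 := abs_le.1 h2
  have e4 := abs_le.1 h4
  have key : lam * |φ (T x)| ≤ v + lam * v := by
    rw [← abs_of_pos hl, ← abs_mul, abs_of_pos hl, abs_le]
    constructor
    · nlinarith [e1.1, e1.2, e2.1, e2.2, e4.1, e4.2, mul_le_mul_of_nonneg_left e4.1 hl.le,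
        mul_le_mul_of_nonneg_left e4.2 hl.le]
    · nlinarith [e1.1, e1.2, e2.1, e2.2, e4.1, e4.2, mul_le_mul_of_nonneg_left e4.1 hl.le,
        mul_le_mul_of_nonneg_left e4.2 hl.le]
  have h5 : v / lam + v = (v + lam * v) / lam := by field_simp
  rw [h5, le_div_iff₀ hl]
  linarith

/-- first coordinate -/
noncomputable def fstX : XX →L[ℝ] ℝ :=
  (ContinuousLinearMap.fst ℝ ℝ W6).comp (toProdL : XX →L[ℝ] (ℝ × W6))

/-- second coordinate -/
noncomputable def sndX : XX →L[ℝ] W6 :=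
  (ContinuousLinearMap.snd ℝ ℝ W6).comp (toProdL : XX →L[ℝ] (ℝ × W6))

lemma fstX_apply (x : XX) : fstX x = x.1 := rfl
lemma sndX_apply (x : XX) : sndX x = x.2 := rfl

/-- build an element of `XX` -/
def mk (a : ℝ) (w : W6) : XX := (a, w)

lemma mk_fst (a : ℝ) (w : W6) : (mk a w).1 = a := rfl
lemma mk_snd (a : ℝ) (w : W6) : (mk a w).2 = w := rfl

lemma add_fst' (x y : XX) : (x + y).1 = x.1 + y.1 := rfl
lemma add_snd' (x y : XX) : (x + y).2 = x.2 + y.2 := rfl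
lemma smul_fst' (c : ℝ) (x : XX) : (c • x).1 = c * x.1 := rfl
lemma smul_snd' (c : ℝ) (x : XX) : (c • x).2 = c • x.2 := rfl
lemma neg_fst' (x : XX) : (-x).1 = -x.1 := rfl
lemma neg_snd' (x : XX) : (-x).2 = -x.2 := rfl
lemma sub_fst' (x y : XX) : (x - y).1 = x.1 - y.1 := rfl
lemma sub_snd' (x y : XX) : (x - y).2 = x.2 - y.2 := rfl

/-- unit block vectors -/
def og : F6 := ![1, 1, 1, 0, 0, 0]
def oh : F6 := ![0, 0, 0, 1, 1, 1]

lemma og_norm : ‖og‖ ≤ 1 := by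
  rw [pi_norm_le_iff_of_nonneg zero_le_one]
  intro i
  fin_cases i <;> simp [og]

lemma oh_norm : ‖oh‖ ≤ 1 := by
  rw [pi_norm_le_iff_of_nonneg zero_le_one]
  intro i
  fin_cases i <;> simp [oh]

lemma gF_og : gF og = 1 := by
  rw [gF_apply]; simp [og]; norm_num
lemma hF_og : hF og = 0 := by
  rw [hF_apply]; simp [og]
lemma gF_oh : gF oh = 0 := by
  rw [gF_apply]; simp [oh]
lemma hF_oh : hF oh = 1 := by
  rw [hF_apply]; simp [oh]; norm_num

lemma single_norm (j : ℕ) (p : F6) : ‖(lp.single 1 j p : W6)‖ = ‖p‖ :=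
  lp.norm_single (E := fun _ : ℕ => F6) (p := 1) zero_lt_one j p

/-- the functional `S_j + θ h_j` -/
noncomputable def phiB (j : ℕ) (th : ℝ) : XX →L[ℝ] ℝ := (SW j + th • HW j).comp sndX

lemma phiB_apply (j : ℕ) (th : ℝ) (x : XX) : phiB j th x = SW j x.2 + th * HW j x.2 := rfl

lemma phiB_le (j : ℕ) (th : ℝ) (hth : |th| ≤ 1) (x : XX) : |phiB j th x| ≤ ‖x‖ := by
  refine le_trans ?_ (XX_norm_B x j)
  rw [phiB_apply]
  refine (abs_add_le _ _).trans ?_
  rw [abs_mul]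
  have := mul_le_mul_of_nonneg_right hth (abs_nonneg (HW j x.2))
  linarith

/-- the bump changing only `S_j` -/
noncomputable def uB (j : ℕ) : XX := mk 0 (lp.single 1 j og - lp.single 1 (j + 1) og)

/-- the bump changing only `h_j` -/
noncomputable def zB (j : ℕ) (th : ℝ) : XX := mk 0 (lp.single 1 j (th • oh))

lemma SW_uB (i j : ℕ) : SW i (uB j).2 = if i = j then 1 else 0 := by
  rw [uB, mk_snd, map_sub, SW_single, SW_single, gF_og]
  split_ifs <;> first | omega | norm_num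

lemma HW_uB (i j : ℕ) : HW i (uB j).2 = 0 := by
  rw [uB, mk_snd, map_sub, HW_single, HW_single, hF_og]
  split_ifs <;> norm_num

lemma GW_uB (j : ℕ) : GW (uB j).2 = 0 := by
  rw [uB, mk_snd, map_sub, GW_single, GW_single]; norm_num

lemma SW_zB (i j : ℕ) (th : ℝ) : SW i (zB j th).2 = 0 := by
  rw [zB, mk_snd, SW_single, map_smul, gF_oh]
  split_ifs <;> simp

lemma HW_zB (i j : ℕ) (th : ℝ) : HW i (zB j th).2 = if i = j then th else 0 := by
  rw [zB, mk_snd, HW_single, map_smul, hF_oh]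
  split_ifs <;> simp

lemma GW_zB (j : ℕ) (th : ℝ) : GW (zB j th).2 = 0 := by
  rw [zB, mk_snd, GW_single, map_smul, gF_oh]; simp

lemma uB_norm2 (j : ℕ) : ‖(uB j).2‖ ≤ 2 := by
  rw [uB, mk_snd]
  refine (norm_sub_le _ _).trans ?_
  rw [single_norm, single_norm]
  linarith [og_norm]

lemma zB_norm2 (j : ℕ) (th : ℝ) (hth : |th| ≤ 1) : ‖(zB j th).2‖ ≤ 1 := by
  rw [zB, mk_snd, single_norm, norm_smul, Real.norm_eq_abs]
  calc |th| * ‖oh‖ ≤ 1 * 1 := mul_le_mul hth oh_norm (norm_nonneg _) zero_le_one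
    _ = 1 := one_mul 1

lemma zB_norm (j : ℕ) (th : ℝ) (hth : |th| ≤ 1) : ‖zB j th‖ ≤ 1 := by
  refine XX_norm_le zero_le_one ?_ ?_ ?_
  · rw [GW_zB]; simp [zB, mk_fst]
  · intro i
    rw [SW_zB, HW_zB]
    split_ifs
    · simpa using hth
    · simp
  · have := zB_norm2 j th hth
    unfold kap; linarith

lemma stepB (j : ℕ) (th : ℝ) (hth : th = 1 ∨ th = -1) (x : XX) (hx : ‖x‖ ≤ 1) :
    ‖(1 / 2 : ℝ) • x + (1 / 2 : ℝ) • uB j +
      (1 - phiB j th ((1 / 2 : ℝ) • uB j) - (1 / 2 : ℝ) * phiB j th x) • zB j th‖ ≤ 1 := by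
  have hth1 : |th| ≤ 1 := by rcases hth with h | h <;> rw [h] <;> simp
  have hth2 : th * th = 1 := by rcases hth with h | h <;> rw [h] <;> norm_num
  have e0 : phiB j th ((1 / 2 : ℝ) • uB j) = 1 / 2 := by
    rw [map_smul, phiB_apply, SW_uB, HW_uB]; simp
  rw [e0]
  set s := SW j x.2 with hs
  set h := HW j x.2 with hh
  have hphi : phiB j th x = s + th * h := rfl
  rw [hphi]
  set mu : ℝ := 1 - 1 / 2 - 1 / 2 * (s + th * h) with hmu
  have hB := XX_norm_B x j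
  rw [← hs, ← hh] at hB
  have hsh : |s + th * h| ≤ 1 := by
    have := (phiB_le j th hth1 x).trans hx
    rwa [hphi] at this
  have hmu0 : 0 ≤ mu := by have := (abs_le.1 hsh).2; rw [hmu]; linarith
  have hmu1 : mu ≤ 1 := by have := (abs_le.1 hsh).1; rw [hmu]; linarith
  have hs1 : |s| ≤ 1 := by linarith [abs_nonneg h]
  refine XX_norm_le zero_le_one ?_ ?_ ?_
  · rw [add_snd', add_snd', smul_snd', smul_snd', smul_snd', map_add, map_add, map_smul, map_smul,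
      map_smul, GW_uB, GW_zB, add_fst', add_fst', smul_fst', smul_fst', smul_fst']
    have e1 : (uB j).1 = 0 := rfl
    have e2 : (zB j th).1 = 0 := rfl
    rw [e1, e2]
    have := XX_norm_E x
    have h1 : ‖x‖ ^ 2 ≤ 1 := by
      have := norm_nonneg x
      nlinarith
    simp only [smul_eq_mul]
    nlinarith
  · intro i
    rw [add_snd', add_snd', smul_snd', smul_snd', smul_snd']
    simp only [map_add, map_smul, SW_uB, SW_zB, HW_uB, HW_zB, smul_eq_mul]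
    by_cases hij : i = j
    · subst hij
      rw [← hs, ← hh]
      simp only [if_true]
      have a1 : 1 / 2 * s + 1 / 2 * 1 + mu * 0 = (1 / 2) * (1 + s) := by ring
      have a2 : 1 / 2 * h + 1 / 2 * 0 + mu * th = (th / 2) * (1 - s) := by
        rw [hmu]
        have : th * (th * h) = h := by rw [← mul_assoc, hth2, one_mul]
        linear_combination (-1 / 2) * this
      rw [a1, a2, abs_mul, abs_mul]
      have hs2 := abs_le.1 hs1
      rw [abs_of_nonneg (by linarith [hs2.1] : 0 ≤ 1 + s),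
        abs_of_nonneg (by linarith [hs2.2] : 0 ≤ 1 - s)]
      have : |th / 2| = 1 / 2 := by
        rcases hth with h | h <;> rw [h] <;> norm_num
      rw [this]
      rw [abs_of_pos (by norm_num : (0:ℝ) < 1 / 2)]
      linarith
    · simp only [if_neg hij]
      have hi := XX_norm_B x i
      have a1 : 1 / 2 * SW i x.2 + 1 / 2 * 0 + mu * 0 = 1 / 2 * SW i x.2 := by ring
      have a2 : 1 / 2 * HW i x.2 + 1 / 2 * 0 + mu * 0 = 1 / 2 * HW i x.2 := by ring
      rw [a1, a2, abs_mul, abs_mul, abs_of_pos (by norm_num : (0:ℝ) < 1 / 2)]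
      linarith
  · rw [add_snd', add_snd', smul_snd', smul_snd', smul_snd']
    have hC := XX_norm_C x
    have n1 : ‖(1 / 2 : ℝ) • x.2 + (1 / 2 : ℝ) • (uB j).2 + mu • (zB j th).2‖ ≤
        1 / 2 * ‖x.2‖ + 1 / 2 * 2 + 1 * 1 := by
      refine (norm_add_le _ _).trans (add_le_add ((norm_add_le _ _).trans (add_le_add ?_ ?_)) ?_)
      · rw [norm_smul]; norm_num
      · rw [norm_smul]
        have := uB_norm2 j
        norm_num
        linarith
      · rw [norm_smul, Real.norm_eq_abs, abs_of_nonneg hmu0]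
        exact mul_le_mul hmu1 (zB_norm2 j th hth1) (norm_nonneg _) zero_le_one
    have n2 := mul_le_mul_of_nonneg_left n1 kap_pos.le
    refine n2.trans ?_
    have : kap * ‖x.2‖ ≤ 1 := hC.trans hx
    have hk : kap = 1 / 20 := rfl
    nlinarith

lemma phiB_bound {T : XX →L[ℝ] XX} {v : ℝ} (hv : RadBound T v) (j : ℕ) (th : ℝ)
    (hth : th = 1 ∨ th = -1) (x : XX) (hx : ‖x‖ ≤ 1) : |phiB j th (T x)| ≤ 3 * v := by
  have hth1 : |th| ≤ 1 := by rcases hth with h | h <;> rw [h] <;> simp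
  have hth2 : th * th = 1 := by rcases hth with h | h <;> rw [h] <;> norm_num
  have hz : phiB j th (zB j th) = 1 := by
    rw [phiB_apply, SW_zB, HW_zB]; simp [hth2]
  have := pert hv (phiB j th) (phiB_le j th hth1) x ((1 / 2 : ℝ) • uB j) (zB j th) (1 / 2)
    (by norm_num) (zB_norm j th hth1) hz hx (stepB j th hth x hx)
    (stepB j th hth (-x) (by rwa [norm_neg]))
  linarith

lemma B_bound {T : XX →L[ℝ] XX} {v : ℝ} (hv : RadBound T v) (j : ℕ) (x : XX) (hx : ‖x‖ ≤ 1) :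
    |SW j (T x).2| + |HW j (T x).2| ≤ 3 * v := by
  have h1 := phiB_bound hv j 1 (Or.inl rfl) x hx
  have h2 := phiB_bound hv j (-1) (Or.inr rfl) x hx
  rw [phiB_apply] at h1 h2
  have h1' := abs_le.1 h1
  have h2' := abs_le.1 h2
  rcases abs_cases (SW j (T x).2) with ⟨e1, _⟩ | ⟨e1, _⟩ <;>
    rcases abs_cases (HW j (T x).2) with ⟨e2, _⟩ | ⟨e2, _⟩ <;>
    rw [e1, e2] <;> linarith [h1'.1, h1'.2, h2'.1, h2'.2]

lemma G_bound {T : XX →L[ℝ] XX} {v : ℝ} (hv : RadBound T v) (x : XX) (hx : ‖x‖ ≤ 1) :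
    |GW (T x).2| ≤ 3 * v := by
  have h1 : Tendsto (fun j => |SW j (T x).2|) atTop (𝓝 |GW (T x).2|) := (SW_tendsto _).abs
  refine le_of_tendsto h1 (Eventually.of_forall (fun j => ?_))
  have := B_bound hv j x hx
  linarith [abs_nonneg (HW j (T x).2)]

/-- `e₀` -/
noncomputable def e0 : XX := mk 1 0

lemma e0_norm : ‖e0‖ ≤ 1 := by
  refine XX_norm_le zero_le_one ?_ ?_ ?_ <;> simp [e0, mk_fst, mk_snd]

lemma stepF (x : XX) (hx : ‖x‖ ≤ 1) (hG : GW x.2 = 0) :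
    ‖(1 : ℝ) • x + 0 + (1 - fstX 0 - (1 : ℝ) * fstX x) • e0‖ ≤ 1 := by
  rw [map_zero, fstX_apply]
  have e1 : ((1 : ℝ) • x + 0 + (1 - 0 - 1 * x.1) • e0).1 = 1 := by
    rw [add_zero, add_fst', smul_fst', smul_fst']
    simp [e0, mk_fst]
  have e2 : ((1 : ℝ) • x + 0 + (1 - 0 - 1 * x.1) • e0).2 = x.2 := by
    rw [add_zero, add_snd', smul_snd', smul_snd']
    simp [e0, mk_snd]
  refine XX_norm_le zero_le_one ?_ ?_ ?_
  · rw [e1, e2, hG]; norm_num
  · intro j; rw [e2]; exact (XX_norm_B x j).trans hx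
  · rw [e2]; exact (XX_norm_C x).trans hx

lemma fst_bound0 {T : XX →L[ℝ] XX} {v : ℝ} (hv : RadBound T v) (x : XX) (hx : ‖x‖ ≤ 1)
    (hG : GW x.2 = 0) : |(T x).1| ≤ 2 * v := by
  have := pert hv fstX (fun y => XX_norm_fst y) x 0 e0 1 one_pos e0_norm
    (by rw [fstX_apply]; rfl) hx (stepF x hx hG)
    (stepF (-x) (by rwa [norm_neg]) (by rw [neg_snd', map_neg, hG, neg_zero]))
  rw [fstX_apply] at this
  linarith

/-- unit bump with `G = 1` -/
noncomputable def uk (k : ℕ) : XX := mk 0 (lp.single 1 k og)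

lemma GW_uk (k : ℕ) : GW (uk k).2 = 1 := by rw [uk, mk_snd, GW_single, gF_og]
lemma SW_uk (i k : ℕ) : SW i (uk k).2 = if k ≤ i then 1 else 0 := by
  rw [uk, mk_snd, SW_single, gF_og]
lemma HW_uk (i k : ℕ) : HW i (uk k).2 = 0 := by
  rw [uk, mk_snd, HW_single, hF_og]; split_ifs <;> rfl
lemma uk_norm2 (k : ℕ) : ‖(uk k).2‖ ≤ 1 := by
  rw [uk, mk_snd, single_norm]; exact og_norm
lemma uk_norm (k : ℕ) : ‖uk k‖ ≤ 1 := by
  refine XX_norm_le zero_le_one ?_ ?_ ?_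
  · rw [GW_uk]; simp [uk, mk_fst]
  · intro j; rw [SW_uk, HW_uk]; split_ifs <;> simp
  · have := uk_norm2 k
    unfold kap; linarith

/-- the functional `(f + G)/√2` -/
noncomputable def psi : XX →L[ℝ] ℝ := (Real.sqrt 2)⁻¹ • (fstX + GW.comp sndX)

lemma psi_apply (x : XX) : psi x = (Real.sqrt 2)⁻¹ * (x.1 + GW x.2) := rfl

lemma psi_le (x : XX) : |psi x| ≤ ‖x‖ := by
  have h2 : (Real.sqrt 2) ^ 2 = 2 := Real.sq_sqrt (by norm_num)
  have h2p : 0 < Real.sqrt 2 := Real.sqrt_pos.2 (by norm_num)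
  refine abs_le_of_sq_le_sq ?_ (norm_nonneg _)
  rw [psi_apply, mul_pow, inv_pow, h2]
  have := XX_norm_E x
  nlinarith [sq_nonneg (x.1 - GW x.2)]

lemma fst_uk {T : XX →L[ℝ] XX} {v : ℝ} (hv : RadBound T v) (k : ℕ) : |(T (uk k)).1| ≤ 9 * v := by
  have h2 : (Real.sqrt 2) * (Real.sqrt 2) = 2 := Real.mul_self_sqrt (by norm_num)
  have h2p : 0 < Real.sqrt 2 := Real.sqrt_pos.2 (by norm_num)
  have h2' : (Real.sqrt 2)⁻¹ * (Real.sqrt 2)⁻¹ = 1 / 2 := by
    rw [← mul_inv, h2]; norm_num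
  have h2i : 0 < (Real.sqrt 2)⁻¹ := inv_pos.2 h2p
  set r := (Real.sqrt 2)⁻¹ with hr
  have hr1 : r ≤ 1 := by nlinarith
  have hn : ‖r • (e0 + uk k)‖ ≤ 1 := by
    refine XX_norm_le zero_le_one ?_ ?_ ?_
    · rw [smul_fst', smul_snd', add_fst', add_snd', map_smul, map_add, GW_uk]
      have a1 : e0.1 = 1 := rfl
      have a2 : (uk k).1 = 0 := rfl
      have a3 : e0.2 = 0 := rfl
      rw [a1, a2, a3, map_zero, smul_eq_mul]
      nlinarith
    · intro j
      rw [smul_snd', add_snd', map_smul, map_smul, map_add, map_add, SW_uk, HW_uk]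
      have a3 : e0.2 = 0 := rfl
      rw [a3, map_zero, map_zero]
      split_ifs
      · simp only [smul_eq_mul, zero_add, mul_one, mul_zero, abs_zero, add_zero, add_zero]
        rw [abs_of_pos h2i]; exact hr1
      · simp
    · rw [smul_snd', add_snd', norm_smul, Real.norm_eq_abs, abs_of_pos h2i]
      have a3 : e0.2 = 0 := rfl
      rw [a3, zero_add]
      have := uk_norm2 k
      have h3 : r * ‖(uk k).2‖ ≤ 1 := by
        have := norm_nonneg (uk k).2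
        nlinarith
      unfold kap; linarith
  have hval : psi (r • (e0 + uk k)) = 1 := by
    rw [map_smul, map_add, psi_apply, psi_apply, GW_uk]
    have a1 : e0.1 = 1 := rfl
    have a2 : (uk k).1 = 0 := rfl
    have a3 : e0.2 = 0 := rfl
    rw [a1, a2, a3, map_zero, smul_eq_mul, ← hr]
    linear_combination 2 * h2'
  have h := hv psi _ psi_le hn hval
  rw [map_smul, map_smul, map_add, psi_apply, smul_eq_mul, ← hr, ← mul_assoc, h2', abs_mul,
    abs_of_pos (by norm_num : (0:ℝ) < 1 / 2), add_fst', add_snd', map_add] at h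
  have b1 : |(T e0).1| ≤ v := hv fstX e0 (fun y => XX_norm_fst y) e0_norm rfl
  have b2 := G_bound hv e0 e0_norm
  have b3 := G_bound hv (uk k) (uk_norm k)
  have h' : |(T e0).1 + (T (uk k)).1 + (GW (T e0).2 + GW (T (uk k)).2)| ≤ 2 * v := by linarith
  have c1 := abs_le.1 b1
  have c2 := abs_le.1 b2
  have c3 := abs_le.1 b3
  have c4 := abs_le.1 h'
  rw [abs_le]
  constructor <;> linarith [c1.1, c1.2, c2.1, c2.2, c3.1, c3.2, c4.1, c4.2]

lemma fst_bound {T : XX →L[ℝ] XX} {v : ℝ} (hv : RadBound T v) (x : XX) (hx : ‖x‖ ≤ 1) :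
    |(T x).1| ≤ 13 * v := by
  have hv0 : 0 ≤ v := by
    have : |(T e0).1| ≤ v := hv fstX e0 (fun y => XX_norm_fst y) e0_norm rfl
    exact (abs_nonneg _).trans this
  set ga := GW x.2 with hga
  have hga1 : |ga| ≤ 1 := (XX_norm_G x).trans hx
  set y : XX := (1 / 2 : ℝ) • (x - ga • uk 0) with hy
  have hyn : ‖y‖ ≤ 1 := by
    rw [hy, norm_smul]
    have h1 : ‖x - ga • uk 0‖ ≤ 2 := by
      refine (norm_sub_le _ _).trans ?_
      rw [norm_smul, Real.norm_eq_abs]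
      have := uk_norm 0
      have h3 : |ga| * ‖uk 0‖ ≤ 1 * 1 := mul_le_mul hga1 this (norm_nonneg _) zero_le_one
      linarith
    rw [Real.norm_eq_abs, abs_of_pos (by norm_num : (0:ℝ) < 1 / 2)]
    linarith
  have hyG : GW y.2 = 0 := by
    rw [hy, smul_snd', sub_snd', smul_snd', map_smul, map_sub, map_smul, GW_uk, ← hga]
    simp
  have h1 := fst_bound0 hv y hyn hyG
  have h2 := fst_uk hv 0
  have e : (T y).1 = 1 / 2 * ((T x).1 - ga * (T (uk 0)).1) := by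
    rw [hy, map_smul, map_sub, map_smul, smul_fst', sub_fst', smul_fst']
  rw [e] at h1
  have h3 : |ga * (T (uk 0)).1| ≤ 9 * v := by
    rw [abs_mul]
    calc |ga| * |(T (uk 0)).1| ≤ 1 * (9 * v) := mul_le_mul hga1 h2 (abs_nonneg _) zero_le_one
      _ = 9 * v := one_mul _
  have h1' := abs_le.1 h1
  have h3' := abs_le.1 h3
  rw [abs_le]
  constructor <;> linarith [h1'.1, h1'.2, h3'.1, h3'.2]

/-- peak vectors -/
noncomputable def vv (c : Fin 6) : F6 := fun i =>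
  if i = c then 1 else if i.val / 3 = c.val / 3 then -(1 / 2) else 0

lemma vv_self (c : Fin 6) : vv c c = 1 := by simp [vv]

lemma vv_ne (c i : Fin 6) (h : i ≠ c) : |vv c i| ≤ 1 / 2 := by
  simp only [vv, if_neg h]
  split_ifs <;> norm_num

lemma vv_norm (c : Fin 6) : ‖vv c‖ ≤ 1 := by
  rw [pi_norm_le_iff_of_nonneg zero_le_one]
  intro i
  by_cases h : i = c
  · subst h; rw [vv_self]; simp
  · rw [Real.norm_eq_abs]; linarith [vv_ne c i h]

lemma gF_vv (c : Fin 6) : gF (vv c) = 0 := by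
  rw [gF_apply]
  fin_cases c <;> simp [vv] <;> norm_num

lemma hF_vv (c : Fin 6) : hF (vv c) = 0 := by
  rw [hF_apply]
  fin_cases c <;> simp [vv] <;> norm_num

/-- signed coordinate functionals -/
noncomputable def mC (c : ℕ → Fin 6) (sg : ℕ → ℝ) (k : ℕ) : F6 →L[ℝ] ℝ :=
  sg k • ContinuousLinearMap.proj (R := ℝ) (φ := fun _ : Fin 6 => ℝ) (c k)

lemma mC_apply (c : ℕ → Fin 6) (sg : ℕ → ℝ) (k : ℕ) (p : F6) : mC c sg k p = sg k * p (c k) := rfl

lemma mC_le (c : ℕ → Fin 6) (sg : ℕ → ℝ) (hsg : ∀ k, |sg k| = 1) (k : ℕ) (p : F6) :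
    |mC c sg k p| ≤ ‖p‖ := by
  rw [mC_apply, abs_mul, hsg k, one_mul]; exact abs_coord_le p _

/-- the functional `κ ∑ ± w_k(c_k)` -/
noncomputable def phiC (c : ℕ → Fin 6) (sg : ℕ → ℝ) (hsg : ∀ k, |sg k| = 1) : XX →L[ℝ] ℝ :=
  kap • ((Msum (mC c sg) (mC_le c sg hsg)).comp sndX)

lemma phiC_apply (c : ℕ → Fin 6) (sg : ℕ → ℝ) (hsg : ∀ k, |sg k| = 1) (x : XX) :
    phiC c sg hsg x = kap * Msum (mC c sg) (mC_le c sg hsg) x.2 := rfl

lemma phiC_le (c : ℕ → Fin 6) (sg : ℕ → ℝ) (hsg : ∀ k, |sg k| = 1) (x : XX) :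
    |phiC c sg hsg x| ≤ kap * ‖x.2‖ := by
  rw [phiC_apply, abs_mul, abs_of_pos kap_pos]
  exact mul_le_mul_of_nonneg_left (Msum_le _ _ _) kap_pos.le

lemma phiC_le' (c : ℕ → Fin 6) (sg : ℕ → ℝ) (hsg : ∀ k, |sg k| = 1) (x : XX) :
    |phiC c sg hsg x| ≤ ‖x‖ := (phiC_le c sg hsg x).trans (XX_norm_C x)

/-- The balancing vector. -/
noncomputable def zC (c : ℕ → Fin 6) (sg : ℕ → ℝ) (hsg : ∀ k, |sg k| = 1) (w : W6) : W6 :=
  ⟨fun k => (4 * ‖w k‖ * sg k) • vv (c k), by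
    refine memℓp_gen ?_
    have h : Summable (fun k => 4 * ‖w k‖) := (W6_summable_norm w).mul_left 4
    refine Summable.of_nonneg_of_le (fun k => ?_) (fun k => ?_) h
    · positivity
    · simp only [ENNReal.toReal_one, Real.rpow_one]
      rw [norm_smul, Real.norm_eq_abs, abs_mul, hsg k, mul_one,
        abs_of_nonneg (by positivity : 0 ≤ 4 * ‖w k‖)]
      have := vv_norm (c k)
      have h2 : 0 ≤ 4 * ‖w k‖ := by positivity
      nlinarith⟩

lemma zC_apply (c : ℕ → Fin 6) (sg : ℕ → ℝ) (hsg : ∀ k, |sg k| = 1) (w : W6) (k : ℕ) :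
    zC c sg hsg w k = (4 * ‖w k‖ * sg k) • vv (c k) := rfl

lemma SW_zC (i : ℕ) (c : ℕ → Fin 6) (sg : ℕ → ℝ) (hsg : ∀ k, |sg k| = 1) (w : W6) :
    SW i (zC c sg hsg w) = 0 := by
  rw [SW_eq_sum]
  refine Finset.sum_eq_zero (fun k _ => ?_)
  rw [zC_apply, map_smul, gF_vv, smul_zero]

lemma GW_zC (c : ℕ → Fin 6) (sg : ℕ → ℝ) (hsg : ∀ k, |sg k| = 1) (w : W6) :
    GW (zC c sg hsg w) = 0 := by
  rw [GW, Msum_apply]
  have : (fun k => gF (zC c sg hsg w k)) = fun _ => 0 := by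
    funext k
    rw [zC_apply, map_smul, gF_vv, smul_zero]
  rw [this, tsum_zero]

lemma HW_zC (i : ℕ) (c : ℕ → Fin 6) (sg : ℕ → ℝ) (hsg : ∀ k, |sg k| = 1) (w : W6) :
    HW i (zC c sg hsg w) = 0 := by
  rw [HW_apply, zC_apply, map_smul, hF_vv, smul_zero]

lemma sg_sq {sg : ℕ → ℝ} (hsg : ∀ k, |sg k| = 1) (k : ℕ) : sg k * sg k = 1 := by
  rw [← abs_mul_abs_self, hsg k, one_mul]

lemma M_zC (c : ℕ → Fin 6) (sg : ℕ → ℝ) (hsg : ∀ k, |sg k| = 1) (w : W6) :
    Msum (mC c sg) (mC_le c sg hsg) (zC c sg hsg w) = 4 * ‖w‖ := by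
  rw [Msum_apply, W6_norm, ← tsum_mul_left]
  refine tsum_congr (fun k => ?_)
  rw [mC_apply, zC_apply]
  have : ((4 * ‖w k‖ * sg k) • vv (c k)) (c k) = (4 * ‖w k‖ * sg k) * vv (c k) (c k) := rfl
  rw [this, vv_self, mul_one]
  have := sg_sq hsg k
  linear_combination (4 * ‖w k‖) * this

/-- The starting vector. -/
noncomputable def z0C (c : ℕ → Fin 6) (sg : ℕ → ℝ) : XX :=
  mk 0 (lp.single 1 0 ((sg 0 * 20) • vv (c 0)))

lemma z0C_norm2 (c : ℕ → Fin 6) (sg : ℕ → ℝ) (hsg : ∀ k, |sg k| = 1) :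
    ‖(z0C c sg).2‖ ≤ 20 := by
  rw [z0C, mk_snd, single_norm, norm_smul, Real.norm_eq_abs, abs_mul, hsg 0, one_mul]
  have := vv_norm (c 0)
  rw [abs_of_pos (by norm_num : (0:ℝ) < 20)]
  linarith

lemma SW_z0C (i : ℕ) (c : ℕ → Fin 6) (sg : ℕ → ℝ) : SW i (z0C c sg).2 = 0 := by
  rw [z0C, mk_snd, SW_single, map_smul, gF_vv]; simp

lemma GW_z0C (c : ℕ → Fin 6) (sg : ℕ → ℝ) : GW (z0C c sg).2 = 0 := by
  rw [z0C, mk_snd, GW_single, map_smul, gF_vv]; simp

lemma HW_z0C (i : ℕ) (c : ℕ → Fin 6) (sg : ℕ → ℝ) : HW i (z0C c sg).2 = 0 := by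
  rw [z0C, mk_snd, HW_single, map_smul, hF_vv]; simp

lemma z0C_norm (c : ℕ → Fin 6) (sg : ℕ → ℝ) (hsg : ∀ k, |sg k| = 1) : ‖z0C c sg‖ ≤ 1 := by
  refine XX_norm_le zero_le_one ?_ ?_ ?_
  · rw [GW_z0C]; simp [z0C, mk_fst]
  · intro j; rw [SW_z0C, HW_z0C]; simp
  · have := z0C_norm2 c sg hsg
    unfold kap; linarith

lemma phiC_z0C (c : ℕ → Fin 6) (sg : ℕ → ℝ) (hsg : ∀ k, |sg k| = 1) :
    phiC c sg hsg (z0C c sg) = 1 := by
  rw [phiC_apply, z0C, mk_snd, Msum_single, mC_apply]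
  have : ((sg 0 * 20) • vv (c 0)) (c 0) = (sg 0 * 20) * vv (c 0) (c 0) := rfl
  rw [this, vv_self]
  have := sg_sq hsg 0
  unfold kap
  linear_combination this

lemma stepC (c : ℕ → Fin 6) (sg : ℕ → ℝ) (hsg : ∀ k, |sg k| = 1) (x : XX) (hx : ‖x‖ ≤ 1)
    (z : XX) (hz : z = (1 / 5 : ℝ) • mk 0 (zC c sg hsg x.2)) :
    ‖(1 / 5 : ℝ) • x + z +
      (1 - phiC c sg hsg z - (1 / 5 : ℝ) * phiC c sg hsg x) • z0C c sg‖ ≤ 1 := by
  have hphiz : phiC c sg hsg z = 4 / 5 * (kap * ‖x.2‖) := by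
    rw [hz, map_smul, phiC_apply, mk_snd, M_zC, smul_eq_mul]; ring
  have hC := (XX_norm_C x).trans hx
  have hC0 : 0 ≤ kap * ‖x.2‖ := mul_nonneg kap_pos.le (norm_nonneg _)
  have hphix := abs_le.1 ((phiC_le' c sg hsg x).trans hx)
  set mu : ℝ := 1 - phiC c sg hsg z - (1 / 5 : ℝ) * phiC c sg hsg x with hmu
  have hmu0 : 0 ≤ mu := by rw [hmu, hphiz]; linarith [hphix.2]
  set y : XX := (1 / 5 : ℝ) • x + z + mu • z0C c sg with hy
  have hphiy : phiC c sg hsg y = 1 := by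
    rw [hy, map_add, map_add, map_smul, map_smul, phiC_z0C, smul_eq_mul, smul_eq_mul, hmu]
    ring
  have hy2 : y.2 = (1 / 5 : ℝ) • x.2 + (1 / 5 : ℝ) • zC c sg hsg x.2 + mu • (z0C c sg).2 := by
    rw [hy, hz, add_snd', add_snd', smul_snd', smul_snd', smul_snd', mk_snd]
  have hy1 : y.1 = 1 / 5 * x.1 := by
    rw [hy, hz, add_fst', add_fst', smul_fst', smul_fst', smul_fst', mk_fst]
    have : (z0C c sg).1 = 0 := rfl
    rw [this]; ring
  have hGy : GW y.2 = 1 / 5 * GW x.2 := by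
    rw [hy2, map_add, map_add, map_smul, map_smul, map_smul, GW_zC, GW_z0C]; simp
  have hSy : ∀ i, SW i y.2 = 1 / 5 * SW i x.2 := by
    intro i
    rw [hy2, map_add, map_add, map_smul, map_smul, map_smul, SW_zC, SW_z0C]; simp
  have hHy : ∀ i, HW i y.2 = 1 / 5 * HW i x.2 := by
    intro i
    rw [hy2, map_add, map_add, map_smul, map_smul, map_smul, HW_zC, HW_z0C]; simp
  -- block structure
  have hblock : ∀ k, ‖y.2 k‖ = mC c sg k (y.2 k) := by
    intro k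
    obtain ⟨A, hA, hyk⟩ : ∃ A : ℝ, 4 / 5 * ‖x.2 k‖ ≤ A ∧
        y.2 k = (1 / 5 : ℝ) • x.2 k + (A * sg k) • vv (c k) := by
      by_cases hk : k = 0
      · refine ⟨4 / 5 * ‖x.2 k‖ + mu * 20, by linarith [mul_nonneg hmu0 (by norm_num : (0:ℝ) ≤ 20)],
          ?_⟩
        have e1 : y.2 k = (1 / 5 : ℝ) • x.2 k + (1 / 5 : ℝ) • (zC c sg hsg x.2 k) +
            mu • ((z0C c sg).2 k) := by rw [hy2]; rfl
        have e2 : (z0C c sg).2 k = (sg k * 20) • vv (c k) := by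
          subst hk
          rw [z0C, mk_snd, lp.single_apply_self]
        rw [e1, e2, zC_apply, smul_smul, smul_smul, add_assoc, ← add_smul]
        congr 2
        ring
      · refine ⟨4 / 5 * ‖x.2 k‖, le_rfl, ?_⟩
        have e1 : y.2 k = (1 / 5 : ℝ) • x.2 k + (1 / 5 : ℝ) • (zC c sg hsg x.2 k) +
            mu • ((z0C c sg).2 k) := by rw [hy2]; rfl
        have e2 : (z0C c sg).2 k = 0 := by
          rw [z0C, mk_snd, lp.single_apply_ne _ _ _ hk]
        rw [e1, e2, zC_apply, smul_smul, smul_zero, add_zero]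
        congr 2
        ring
    have hw : 0 ≤ ‖x.2 k‖ := norm_nonneg _
    have hA0 : 0 ≤ A := by linarith
    have hss := sg_sq hsg k
    have hval : mC c sg k (y.2 k) = 1 / 5 * (sg k * x.2 k (c k)) + A := by
      rw [mC_apply, hyk]
      have : ((1 / 5 : ℝ) • x.2 k + (A * sg k) • vv (c k)) (c k)
          = 1 / 5 * x.2 k (c k) + (A * sg k) * vv (c k) (c k) := rfl
      rw [this, vv_self]
      linear_combination A * hss
    have hcc : |sg k * x.2 k (c k)| ≤ ‖x.2 k‖ := by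
      rw [abs_mul, hsg k, one_mul]; exact abs_coord_le _ _
    have hcc' := abs_le.1 hcc
    refine le_antisymm ?_ ((le_abs_self _).trans (mC_le c sg hsg k _))
    rw [hval]
    have hnn : 0 ≤ 1 / 5 * (sg k * x.2 k (c k)) + A := by linarith [hcc'.1]
    rw [pi_norm_le_iff_of_nonneg hnn]
    intro i
    rw [Real.norm_eq_abs]
    by_cases hi : i = c k
    · rw [hi]
      have h1 : |y.2 k (c k)| = |sg k * y.2 k (c k)| := by rw [abs_mul, hsg k, one_mul]
      have h2 : sg k * y.2 k (c k) = 1 / 5 * (sg k * x.2 k (c k)) + A := by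
        rw [← mC_apply c sg k (y.2 k), hval]
      rw [h1, h2, abs_of_nonneg hnn]
    · rw [hyk]
      have e : ((1 / 5 : ℝ) • x.2 k + (A * sg k) • vv (c k)) i
          = 1 / 5 * x.2 k i + (A * sg k) * vv (c k) i := rfl
      rw [e]
      have h1 : |1 / 5 * x.2 k i| ≤ 1 / 5 * ‖x.2 k‖ := by
        rw [abs_mul, abs_of_pos (by norm_num : (0:ℝ) < 1 / 5)]
        exact mul_le_mul_of_nonneg_left (abs_coord_le _ _) (by norm_num)
      have h2 : |(A * sg k) * vv (c k) i| ≤ A * (1 / 2) := by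
        rw [abs_mul, abs_mul, hsg k, mul_one, abs_of_nonneg hA0]
        exact mul_le_mul_of_nonneg_left (vv_ne _ _ hi) hA0
      have h3 := abs_add_le (1 / 5 * x.2 k i) ((A * sg k) * vv (c k) i)
      linarith [hcc'.1]
  have hnorm : kap * ‖y.2‖ = 1 := by
    rw [W6_norm, tsum_congr hblock, ← Msum_apply (mC c sg) (mC_le c sg hsg),
      ← phiC_apply c sg hsg, hphiy]
  refine XX_norm_le zero_le_one ?_ ?_ ?_
  · rw [hy1, hGy]
    have := XX_norm_E x
    have h1 : ‖x‖ ^ 2 ≤ 1 := by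
      have := norm_nonneg x
      nlinarith
    nlinarith
  · intro i
    rw [hSy, hHy, abs_mul, abs_mul, abs_of_pos (by norm_num : (0:ℝ) < 1 / 5)]
    have := XX_norm_B x i
    linarith
  · exact hnorm.le

lemma C_bound {T : XX →L[ℝ] XX} {v : ℝ} (hv : RadBound T v) (x : XX) (hx : ‖x‖ ≤ 1) :
    kap * ‖(T x).2‖ ≤ 6 * v := by
  have hex : ∀ k, ∃ (c : Fin 6) (s : ℝ), |s| = 1 ∧ ‖(T x).2 k‖ = s * (T x).2 k c := by
    intro k
    obtain ⟨c, _, hc⟩ := Finset.exists_max_image (Finset.univ : Finset (Fin 6))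
      (fun i => |(T x).2 k i|) ⟨0, Finset.mem_univ _⟩
    have h1 : ‖(T x).2 k‖ = |(T x).2 k c| := by
      refine le_antisymm ?_ (abs_coord_le _ _)
      rw [pi_norm_le_iff_of_nonneg (abs_nonneg _)]
      intro i
      rw [Real.norm_eq_abs]
      exact hc i (Finset.mem_univ _)
    rcases abs_cases ((T x).2 k c) with ⟨e, _⟩ | ⟨e, _⟩
    · exact ⟨c, 1, by simp, by rw [h1, e, one_mul]⟩
    · exact ⟨c, -1, by simp, by rw [h1, e]; ring⟩
  choose c sg hsg hnorm using hex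
  have h1 : phiC c sg hsg (T x) = kap * ‖(T x).2‖ := by
    rw [phiC_apply, Msum_apply, W6_norm]
    congr 1
    refine tsum_congr (fun k => ?_)
    rw [mC_apply, hnorm k]
  have hneg : ∀ w : W6, zC c sg hsg (-w) = zC c sg hsg w := by
    intro w
    refine lp.ext ?_
    funext k
    rw [zC_apply, zC_apply]
    have : (-w) k = -(w k) := rfl
    rw [this, norm_neg]
  have := pert hv (phiC c sg hsg) (phiC_le' c sg hsg) x ((1 / 5 : ℝ) • mk 0 (zC c sg hsg x.2))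
    (z0C c sg) (1 / 5) (by norm_num) (z0C_norm c sg hsg) (phiC_z0C c sg hsg) hx
    (stepC c sg hsg x hx _ rfl)
    (stepC c sg hsg (-x) (by rwa [norm_neg]) _ (by rw [neg_snd', hneg]))
  rw [h1] at this
  have h2 := (le_abs_self _).trans this
  linarith

/-- **Lower estimate**: the operator norm is at most `14` times the numerical radius. -/
theorem norm_le_of_radBound {T : XX →L[ℝ] XX} {v : ℝ} (hv : RadBound T v) : ‖T‖ ≤ 14 * v := by
  have hv0 : 0 ≤ v := by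
    have : |(T e0).1| ≤ v := hv fstX e0 (fun y => XX_norm_fst y) e0_norm rfl
    exact (abs_nonneg _).trans this
  have key : ∀ x : XX, ‖x‖ ≤ 1 → ‖T x‖ ≤ 14 * v := by
    intro x hx
    refine XX_norm_le (by positivity) ?_ ?_ ?_
    · have h1 := abs_le.1 (fst_bound hv x hx)
      have h2 := abs_le.1 (G_bound hv x hx)
      have h3 : (T x).1 ^ 2 ≤ (13 * v) ^ 2 := sq_le_sq' h1.1 h1.2
      have h4 : GW (T x).2 ^ 2 ≤ (3 * v) ^ 2 := sq_le_sq' h2.1 h2.2
      nlinarith [sq_nonneg v]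
    · intro j
      have := B_bound hv j x hx
      linarith
    · have := C_bound hv x hx
      linarith
  refine ContinuousLinearMap.opNorm_le_of_unit_norm (by positivity) (fun x hx => key x hx.le)

end Pool.Agent.Helper30
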