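import Mathlib
import Pool.Agent.Helper30.NILower

set_option autoImplicit false

open MeasureTheory Filter Set
open scoped Topology NNReal ENNReal

namespace Pool.Agent.Helper30

/-- the dual space -/
abbrev XD : Type := XX →L[ℝ] ℝ

lemma seq_bound (φ : XD) (k : ℕ) : φ (uk k) ∈ Metric.closedBall (0 : ℝ) ‖φ‖ := by
  rw [mem_closedBall_zero_iff]
  calc ‖φ (uk k)‖ ≤ ‖φ‖ * ‖uk k‖ := φ.le_opNorm _
    _ ≤ ‖φ‖ * 1 := mul_le_mul_of_nonneg_left (uk_norm k) (norm_nonneg _)
    _ = ‖φ‖ := mul_one _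

lemma tau_exists (φ : XD) : ∃ a ∈ Metric.closedBall (0 : ℝ) ‖φ‖,
    Tendsto (fun k => φ (uk k)) (hyperfilter ℕ : Filter ℕ) (𝓝 a) := by
  have hc : IsCompact (Metric.closedBall (0 : ℝ) ‖φ‖) := isCompact_closedBall _ _
  have := hc.ultrafilter_le_nhds ((hyperfilter ℕ).map (fun k => φ (uk k))) (by
    exact tendsto_principal.2 (Eventually.of_forall (fun k => seq_bound φ k)))
  exact this

/-- the limit functional -/
noncomputable def tau0 (φ : XD) : ℝ := (tau_exists φ).choose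

lemma tau0_tendsto (φ : XD) :
    Tendsto (fun k => φ (uk k)) (hyperfilter ℕ : Filter ℕ) (𝓝 (tau0 φ)) :=
  (tau_exists φ).choose_spec.2

lemma tau0_le (φ : XD) : ‖tau0 φ‖ ≤ ‖φ‖ := by
  have := (tau_exists φ).choose_spec.1
  rwa [mem_closedBall_zero_iff] at this

/-- the limit functional as an element of the bidual -/
noncomputable def tau : XD →L[ℝ] ℝ :=
  LinearMap.mkContinuous
    { toFun := tau0
      map_add' := by
        intro φ ψ
        have h1 := (tau0_tendsto φ).add (tau0_tendsto ψ)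
        exact tendsto_nhds_unique (tau0_tendsto (φ + ψ)) h1
      map_smul' := by
        intro c φ
        have h1 := (tau0_tendsto φ).const_mul c
        exact tendsto_nhds_unique (tau0_tendsto (c • φ)) h1 } 1
    (fun φ => by rw [one_mul]; exact tau0_le φ)

lemma tau_tendsto (φ : XD) :
    Tendsto (fun k => φ (uk k)) (hyperfilter ℕ : Filter ℕ) (𝓝 (tau φ)) := tau0_tendsto φ

/-- The functional `G`. -/
noncomputable def gX : XD := GW.comp sndX

lemma gX_apply (x : XX) : gX x = GW x.2 := rfl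

/-- The operator on the dual. -/
noncomputable def SS : XD →L[ℝ] XD :=
  tau.smulRight fstX - (ContinuousLinearMap.apply ℝ ℝ e0).smulRight gX

lemma SS_apply (φ : XD) (x : XX) : SS φ x = tau φ * x.1 - φ e0 * GW x.2 := rfl

lemma hyper_le : (hyperfilter ℕ : Filter ℕ) ≤ atTop := by
  rw [← Nat.cofinite_eq_atTop]; exact hyperfilter_le_cofinite

/-- The key perturbation estimate. -/
lemma key_pert (h : ℝ) (x : XX) (eps : ℝ) (heps : 0 < eps) :
    ∀ᶠ k in atTop, ‖x + h • (x.1 • uk k - GW x.2 • e0)‖ ≤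
      (1 + kap * |h| + h ^ 2) * ‖x‖ + eps := by
  have hE := XX_norm_E x
  have hk := kap_pos
  have hxn := norm_nonneg x
  have hc0 : 0 ≤ kap * |h| + h ^ 2 := by positivity
  have hbig : ‖x‖ ≤ (1 + kap * |h| + h ^ 2) * ‖x‖ + eps := by nlinarith
  -- limits at infinity
  have hS : ∀ᶠ j in atTop, |SW j x.2 - GW x.2| < eps / 2 := by
    have := (SW_tendsto x.2)
    rw [Metric.tendsto_atTop] at this
    obtain ⟨N, hN⟩ := this (eps / 2) (by positivity)
    filter_upwards [eventually_ge_atTop N] with j hj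
    have := hN j hj
    rwa [Real.dist_eq] at this
  have hH : ∀ᶠ j in atTop, |HW j x.2| < eps / 2 := by
    have := (HW_tendsto x.2)
    rw [Metric.tendsto_atTop] at this
    obtain ⟨N, hN⟩ := this (eps / 2) (by positivity)
    filter_upwards [eventually_ge_atTop N] with j hj
    have := hN j hj
    rwa [Real.dist_eq, sub_zero] at this
  obtain ⟨N, hN⟩ := eventually_atTop.1 (hS.and hH)
  filter_upwards [eventually_ge_atTop N] with k hkN
  have y1 : (x + h • (x.1 • uk k - GW x.2 • e0)).1 = x.1 - h * GW x.2 := by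
    rw [add_fst', smul_fst', sub_fst', smul_fst', smul_fst']
    have a1 : (uk k).1 = 0 := rfl
    have a2 : e0.1 = 1 := rfl
    rw [a1, a2]; ring
  have y2 : (x + h • (x.1 • uk k - GW x.2 • e0)).2 = x.2 + (h * x.1) • (uk k).2 := by
    rw [add_snd', smul_snd', sub_snd', smul_snd', smul_snd']
    have a2 : e0.2 = 0 := rfl
    rw [a2, smul_zero, sub_zero, smul_smul]
  have hrot : (x.1 - h * GW x.2) ^ 2 + (GW x.2 + h * x.1) ^ 2 ≤
      ((1 + kap * |h| + h ^ 2) * ‖x‖) ^ 2 := by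
    have e : (x.1 - h * GW x.2) ^ 2 + (GW x.2 + h * x.1) ^ 2 =
        (1 + h ^ 2) * (x.1 ^ 2 + GW x.2 ^ 2) := by ring
    rw [e, mul_pow]
    have a : (1 + h ^ 2) ≤ (1 + kap * |h| + h ^ 2) ^ 2 := by nlinarith [sq_nonneg h, abs_nonneg h]
    have b : 0 ≤ x.1 ^ 2 + GW x.2 ^ 2 := by positivity
    calc (1 + h ^ 2) * (x.1 ^ 2 + GW x.2 ^ 2) ≤ (1 + kap * |h| + h ^ 2) ^ 2 * (x.1 ^ 2 + GW x.2 ^ 2) :=
          mul_le_mul_of_nonneg_right a b
      _ ≤ (1 + kap * |h| + h ^ 2) ^ 2 * ‖x‖ ^ 2 := mul_le_mul_of_nonneg_left hE (by positivity)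
  have hCpos : 0 ≤ (1 + kap * |h| + h ^ 2) * ‖x‖ := by positivity
  refine XX_norm_le (by linarith) ?_ ?_ ?_
  · rw [y1, y2, map_add, map_smul, GW_uk, smul_eq_mul, mul_one]
    refine hrot.trans ?_
    exact pow_le_pow_left₀ hCpos (by linarith) 2
  · intro j
    rw [y2, map_add, map_add, map_smul, map_smul, SW_uk, HW_uk, smul_zero, add_zero]
    split_ifs with hjk
    · obtain ⟨s1, s2⟩ := hN j (hkN.trans hjk)
      rw [smul_eq_mul, mul_one]
      have h3 : |GW x.2 + h * x.1| ≤ (1 + kap * |h| + h ^ 2) * ‖x‖ := by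
        refine abs_le_of_sq_le_sq ?_ hCpos
        nlinarith [sq_nonneg (x.1 - h * GW x.2)]
      have h4 : |SW j x.2 + h * x.1| ≤ |SW j x.2 - GW x.2| + |GW x.2 + h * x.1| := by
        have := abs_add_le (SW j x.2 - GW x.2) (GW x.2 + h * x.1)
        have e : SW j x.2 - GW x.2 + (GW x.2 + h * x.1) = SW j x.2 + h * x.1 := by ring
        rwa [e] at this
      linarith
    · rw [smul_zero, add_zero]
      exact (XX_norm_B x j).trans hbig
  · rw [y2]
    have h5 : ‖x.2 + (h * x.1) • (uk k).2‖ ≤ ‖x.2‖ + |h| * |x.1| := by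
      refine (norm_add_le _ _).trans (add_le_add le_rfl ?_)
      rw [norm_smul, Real.norm_eq_abs, abs_mul]
      have := uk_norm2 k
      have h6 : 0 ≤ |h| * |x.1| := by positivity
      nlinarith
    have h7 := XX_norm_C x
    have h8 := XX_norm_fst x
    have h9 : kap * (|h| * |x.1|) ≤ kap * |h| * ‖x‖ := by
      rw [← mul_assoc]
      exact mul_le_mul_of_nonneg_left h8 (by positivity)
    have h10 := mul_le_mul_of_nonneg_left h5 hk.le
    have h11 : 0 ≤ h ^ 2 * ‖x‖ := by positivity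
    nlinarith

lemma key_norm (h : ℝ) (φ : XD) : ‖φ + h • SS φ‖ ≤ (1 + kap * |h| + h ^ 2) * ‖φ‖ := by
  have hk := kap_pos
  refine ContinuousLinearMap.opNorm_le_bound _ (by positivity) (fun x => ?_)
  -- limit representation
  have hlim : Tendsto (fun k => φ (x + h • (x.1 • uk k - GW x.2 • e0)))
      (hyperfilter ℕ : Filter ℕ) (𝓝 ((φ + h • SS φ) x)) := by
    have h1 : Tendsto (fun k => φ x + h * (x.1 * φ (uk k) - GW x.2 * φ e0))
        (hyperfilter ℕ : Filter ℕ) (𝓝 (φ x + h * (x.1 * tau φ - GW x.2 * φ e0))) :=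
      (((tau_tendsto φ).const_mul x.1).sub_const _ |>.const_mul h).const_add _
    have e1 : (φ + h • SS φ) x = φ x + h * (x.1 * tau φ - GW x.2 * φ e0) := by
      change φ x + h * (SS φ x) = _
      rw [SS_apply]; ring
    rw [e1]
    refine h1.congr (fun k => ?_)
    simp only [map_add, map_smul, map_sub, smul_eq_mul]
  refine le_of_forall_pos_le_add (fun eps heps => ?_)
  have hev := hyper_le (key_pert h x (eps / (‖φ‖ + 1)) (by positivity))
  have h2 := hlim.norm
  refine le_of_tendsto h2 ?_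
  have hev' : ∀ᶠ k in (hyperfilter ℕ : Filter ℕ), ‖x + h • (x.1 • uk k - GW x.2 • e0)‖ ≤
      (1 + kap * |h| + h ^ 2) * ‖x‖ + eps / (‖φ‖ + 1) := hev
  filter_upwards [hev'] with k hk'
  calc ‖φ (x + h • (x.1 • uk k - GW x.2 • e0))‖
      ≤ ‖φ‖ * ‖x + h • (x.1 • uk k - GW x.2 • e0)‖ := φ.le_opNorm _
    _ ≤ ‖φ‖ * ((1 + kap * |h| + h ^ 2) * ‖x‖ + eps / (‖φ‖ + 1)) :=
        mul_le_mul_of_nonneg_left hk' (norm_nonneg _)
    _ = (1 + kap * |h| + h ^ 2) * ‖φ‖ * ‖x‖ + ‖φ‖ * (eps / (‖φ‖ + 1)) := by ring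
    _ ≤ (1 + kap * |h| + h ^ 2) * ‖φ‖ * ‖x‖ + eps := by
        have h3 : ‖φ‖ * (eps / (‖φ‖ + 1)) ≤ eps := by
          rw [mul_div_assoc', div_le_iff₀ (by positivity)]
          nlinarith [norm_nonneg φ]
        linarith

/-- **Upper estimate**: the numerical radius of `SS` is at most `κ`. -/
theorem SS_radius (φ : XD) (Φ : XD →L[ℝ] ℝ) (h1 : ‖φ‖ = 1) (h2 : ‖Φ‖ = 1) (h3 : Φ φ = 1) :
    |Φ (SS φ)| ≤ kap := by
  have hk := kap_pos
  have hh : ∀ h : ℝ, 1 + h * Φ (SS φ) ≤ 1 + kap * |h| + h ^ 2 := by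
    intro h
    have e : Φ (φ + h • SS φ) = 1 + h * Φ (SS φ) := by
      rw [map_add, map_smul, h3, smul_eq_mul]
    have a := key_norm h φ
    rw [h1, mul_one] at a
    calc 1 + h * Φ (SS φ) = Φ (φ + h • SS φ) := e.symm
      _ ≤ ‖Φ (φ + h • SS φ)‖ := le_abs_self _
      _ ≤ ‖Φ‖ * ‖φ + h • SS φ‖ := Φ.le_opNorm _
      _ ≤ 1 + kap * |h| + h ^ 2 := by rw [h2, one_mul]; exact a
  rw [abs_le]
  constructor
  · refine le_of_forall_pos_le_add (fun eps heps => ?_)
    have := hh (-eps)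
    rw [abs_neg, abs_of_pos heps] at this
    have h4 : eps * (-Φ (SS φ)) ≤ eps * (kap + eps) := by nlinarith
    have h5 := le_of_mul_le_mul_left h4 heps
    linarith
  · refine le_of_forall_pos_le_add (fun eps heps => ?_)
    have := hh eps
    rw [abs_of_pos heps] at this
    have h4 : eps * (Φ (SS φ)) ≤ eps * (kap + eps) := by nlinarith
    exact le_of_mul_le_mul_left h4 heps

lemma SS_norm : 1 ≤ ‖SS‖ := by
  have h1 : SS gX = fstX := by
    refine ContinuousLinearMap.ext (fun x => ?_)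
    rw [SS_apply, fstX_apply]
    have a : tau gX = 1 := by
      refine tendsto_nhds_unique (tau_tendsto gX) ?_
      refine tendsto_const_nhds.congr (fun k => ?_)
      rw [gX_apply, GW_uk]
    have b : gX e0 = 0 := by
      rw [gX_apply]
      have a3 : e0.2 = 0 := rfl
      rw [a3, map_zero]
    rw [a, b]; ring
  have h2 : ‖gX‖ ≤ 1 := ContinuousLinearMap.opNorm_le_bound _ zero_le_one (fun x => by
    rw [one_mul]; exact XX_norm_G x)
  have h3 : 1 ≤ ‖fstX‖ := by
    have := fstX.le_opNorm e0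
    have a : fstX e0 = 1 := rfl
    rw [a, norm_one] at this
    have := e0_norm
    have := norm_nonneg fstX
    nlinarith
  have h4 := SS.le_opNorm gX
  rw [h1] at h4
  have := norm_nonneg SS
  nlinarith [norm_nonneg gX]

end Pool.Agent.Helper30
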