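import Mathlib
import Pool.Agent.Helper30.NIUpper

set_option autoImplicit false

open MeasureTheory Filter Set
open scoped Topology NNReal ENNReal

namespace Pool.Agent.Helper30

/-- numerical index of a real normed space, in the form used by the frozen statement -/
noncomputable def nidx (X : Type) [NormedAddCommGroup X] [NormedSpace ℝ X] : ℝ :=
  ⨅ T : {T : X →L[ℝ] X // ‖T‖ = 1},
          ⨆ p : {p : X × (X →L[ℝ] ℝ) // ‖p.1‖ = 1 ∧ ‖p.2‖ = 1 ∧ p.2 p.1 = 1},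
            ‖p.1.2 (T.1 p.1.1)‖

lemma e0_norm_eq : ‖e0‖ = 1 := by
  have h2 := XX_norm_fst e0
  have h3 : e0.1 = 1 := rfl
  rw [h3, abs_one] at h2
  exact le_antisymm e0_norm h2

theorem nidx_XX : (1 / 14 : ℝ) ≤ nidx XX := by
  have : Nonempty {T : XX →L[ℝ] XX // ‖T‖ = 1} := by
    refine ⟨⟨ContinuousLinearMap.id ℝ _, ?_⟩⟩
    refine le_antisymm ContinuousLinearMap.norm_id_le ?_
    have h1 := (ContinuousLinearMap.id ℝ XX).le_opNorm e0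
    rw [ContinuousLinearMap.id_apply, e0_norm_eq, mul_one] at h1
    exact h1
  refine le_ciInf (fun T => ?_)
  have hbdd : BddAbove (Set.range (fun p : {p : XX ×
      (XX →L[ℝ] ℝ) // ‖p.1‖ = 1 ∧ ‖p.2‖ = 1 ∧ p.2 p.1 = 1} =>
          ‖p.1.2 (T.1 p.1.1)‖)) := by
    refine ⟨1, ?_⟩
    rintro _ ⟨p, rfl⟩
    calc ‖p.1.2 (T.1 p.1.1)‖ ≤ ‖p.1.2‖ * ‖T.1 p.1.1‖ := p.1.2.le_opNorm _
      _ ≤ ‖p.1.2‖ * (‖T.1‖ * ‖p.1.1‖) :=
          mul_le_mul_of_nonneg_left (T.1.le_opNorm _) (norm_nonneg _)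
      _ = 1 := by rw [p.2.1, p.2.2.1, T.2]; norm_num
  have hrad : RadBound T.1
      (⨆ p : {p : XX × (XX →L[ℝ] ℝ) //
          ‖p.1‖ = 1 ∧ ‖p.2‖ = 1 ∧ p.2 p.1 = 1}, ‖p.1.2 (T.1 p.1.1)‖) := by
    intro φ x hφ hx hφx
    have hφn : ‖φ‖ ≤ 1 := ContinuousLinearMap.opNorm_le_bound _ zero_le_one
      (fun y => by rw [one_mul]; exact hφ y)
    have hle := φ.le_opNorm x
    rw [hφx, norm_one] at hle
    have hxn : ‖x‖ = 1 := by
      refine le_antisymm hx ?_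
      have := norm_nonneg x
      nlinarith
    have hφn' : ‖φ‖ = 1 := by
      refine le_antisymm hφn ?_
      rw [hxn, mul_one] at hle
      exact hle
    exact le_ciSup hbdd ⟨(x, φ), hxn, hφn', hφx⟩
  have := norm_le_of_radBound hrad
  rw [T.2] at this
  linarith

lemma norm_normalize {E : Type} [NormedAddCommGroup E] [NormedSpace ℝ E] (S : E →L[ℝ] E)
    (h : 0 < ‖S‖) : ‖‖S‖⁻¹ • S‖ = 1 := by
  rw [norm_smul, norm_inv, norm_norm, inv_mul_cancel₀ h.ne']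

theorem nidx_XD : nidx XD ≤ 1 / 20 := by
  have hS := SS_norm
  have hS0 : 0 < ‖SS‖ := by linarith
  have hn1 : ‖‖SS‖⁻¹ • SS‖ = 1 := norm_normalize SS hS0
  refine (ciInf_le ⟨0, ?_⟩ ⟨‖SS‖⁻¹ • SS, hn1⟩).trans ?_
  · rintro _ ⟨T, rfl⟩
    exact Real.iSup_nonneg (fun p => norm_nonneg _)
  · refine Real.iSup_le (fun p => ?_) (by norm_num)
    have h1 := SS_radius p.1.1 p.1.2 p.2.1 p.2.2.1 p.2.2.2
    have h2 : p.1.2 ((‖SS‖⁻¹ • SS) p.1.1) =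
        ‖SS‖⁻¹ * p.1.2 (SS p.1.1) := by
      change p.1.2 (‖SS‖⁻¹ • (SS p.1.1)) = _
      rw [map_smul, smul_eq_mul]
    change ‖p.1.2 ((‖SS‖⁻¹ • SS) p.1.1)‖ ≤ 1 / 20
    have h3 : ‖SS‖⁻¹ ≤ 1 := inv_le_one_of_one_le₀ hS
    have h4 : 0 ≤ ‖SS‖⁻¹ := inv_nonneg.2 hS0.le
    rw [h2, norm_mul, Real.norm_eq_abs, Real.norm_eq_abs, abs_of_nonneg h4]
    have h5 : kap = 1 / 20 := rfl
    rw [h5] at h1
    calc ‖SS‖⁻¹ * |p.1.2 (SS p.1.1)|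
        ≤ 1 * (1 / 20) := mul_le_mul h3 h1 (abs_nonneg _) zero_le_one
      _ = 1 / 20 := one_mul _

end Pool.Agent.Helper30
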